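import Mathlib

/-!
# A spectral lemma
-/

set_option autoImplicit false

namespace Pool.Agent.Lib.MP_071ace_co.AK

open Matrix

theorem spec {ι : Type} [Fintype ι] [DecidableEq ι] {M : Matrix ι ι ℝ} (hM : M.transpose = M)
    {h : ι → ℝ} (ha : ∀ z : ι → ℝ, z ⬝ᵥ (M *ᵥ z) ≤ (M *ᵥ z) ⬝ᵥ (M *ᵥ z))
    (hb : ∀ l : ℝ, 1 ≤ l → ∀ u : ι → ℝ, M *ᵥ u = l • u → ∃ c : ℝ, u = c • h)
    (z : ι → ℝ) (hz : z ⬝ᵥ h = 0) : z ⬝ᵥ (M *ᵥ z) ≤ 0 := by
  have hH : M.IsHermitian := by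
    rw [Matrix.IsHermitian, Matrix.conjTranspose_eq_transpose_of_trivial, hM]
  set b := hH.eigenvectorBasis with hbdef
  set u : ι → ι → ℝ := fun i => (b i).ofLp with hu
  set l := hH.eigenvalues with hl
  have hMu : ∀ i, M *ᵥ u i = l i • u i := fun i => hH.mulVec_eigenvectorBasis i
  have hexp : ∀ x y : ι → ℝ, x ⬝ᵥ y = ∑ i, (x ⬝ᵥ u i) * (u i ⬝ᵥ y) := by
    intro x y
    have h1 := b.sum_inner_mul_inner (WithLp.toLp 2 x) (WithLp.toLp 2 y)
    rw [EuclideanSpace.inner_eq_star_dotProduct] at h1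
    simp only [star_trivial] at h1
    rw [dotProduct_comm x y, ← h1]
    refine Finset.sum_congr rfl fun i _ => ?_
    rw [EuclideanSpace.inner_eq_star_dotProduct, EuclideanSpace.inner_eq_star_dotProduct]
    simp only [star_trivial]
    rw [dotProduct_comm (u i) x, dotProduct_comm y]
  have hone : ∀ i, u i ⬝ᵥ u i = 1 := by
    intro i
    have h1 : inner ℝ (b i) (b i) = (1 : ℝ) := by
      rw [real_inner_self_eq_norm_sq, b.norm_eq_one]
      norm_num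
    rw [EuclideanSpace.inner_eq_star_dotProduct] at h1
    simpa using h1
  have hsym : ∀ x y : ι → ℝ, x ⬝ᵥ (M *ᵥ y) = (M *ᵥ x) ⬝ᵥ y := by
    intro x y
    rw [Matrix.dotProduct_mulVec, ← Matrix.mulVec_transpose, hM]
  rw [hexp z (M *ᵥ z)]
  apply Finset.sum_nonpos
  intro i _
  rw [hsym, hMu, smul_dotProduct, smul_eq_mul, dotProduct_comm (u i) z]
  have h1 := ha (u i)
  rw [hMu, dotProduct_smul, smul_dotProduct, dotProduct_smul, hone] at h1
  simp only [smul_eq_mul, mul_one] at h1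
  rcases le_or_gt (l i) 0 with h2 | h2
  · nlinarith [mul_self_nonneg (z ⬝ᵥ u i)]
  · have h3 : 1 ≤ l i := by nlinarith
    obtain ⟨c, hc⟩ := hb (l i) h3 (u i) (hMu i)
    rw [hc, dotProduct_smul, hz]
    simp

end Pool.Agent.Lib.MP_071ace_co.AK
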