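import Pool.Agent.Lib.MP_071ace_co.AK.Mat
import Pool.Agent.Lib.MP_071ace_co.AK.Spec

/-!
# The correlation inequality for bases of matroids (Huh, Schröter, Wang)
-/

set_option autoImplicit false

namespace Pool.Agent.Lib.MP_071ace_co.AK

open Finset Matrix

variable {E : Type} [Fintype E] [DecidableEq E] (M : Mat E)

/-- the quadratic form of the link -/
noncomputable def Mat.q (S : Finset E) (y : E → ℝ) : ℝ := ∑ e, ∑ f, M.A S e f * y e * y f

theorem Mat.q_shift (S : Finset E) (hS : S.card + 1 ≤ M.r) (y : E → ℝ) (t : ℝ) :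
    M.q S (fun e => y e - t) = M.q S y - 2 * t * (((M.r : ℝ) - S.card - 1) * ∑ e, M.D S e * y e) +
      t ^ 2 * (((M.r : ℝ) - S.card - 1) * (((M.r : ℝ) - S.card) * M.b S)) := by
  have h1 : ∀ e, ∑ f, M.A S e f = ((M.r : ℝ) - S.card - 1) * M.D S e := fun e => M.sum_A S e hS
  have h2 : ∀ f, ∑ e, M.A S e f = ((M.r : ℝ) - S.card - 1) * M.D S f := by
    intro f
    rw [← h1 f]
    exact sum_congr rfl fun e _ => M.A_comm S e f
  have h3 : M.q S (fun e => y e - t) = M.q S y - t * (∑ e, ∑ f, M.A S e f * y e) -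
      t * (∑ e, ∑ f, M.A S e f * y f) + t ^ 2 * ∑ e, ∑ f, M.A S e f := by
    unfold Mat.q
    simp only [mul_sum]
    rw [← sum_sub_distrib, ← sum_sub_distrib, ← sum_add_distrib]
    refine sum_congr rfl fun e _ => ?_
    rw [← sum_sub_distrib, ← sum_sub_distrib, ← sum_add_distrib]
    refine sum_congr rfl fun f _ => ?_
    ring
  have h4 : ∑ e, ∑ f, M.A S e f * y e = ((M.r : ℝ) - S.card - 1) * ∑ e, M.D S e * y e := by
    rw [mul_sum]
    refine sum_congr rfl fun e _ => ?_
    rw [← sum_mul, h1]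
    ring
  have h5 : ∑ e, ∑ f, M.A S e f * y f = ((M.r : ℝ) - S.card - 1) * ∑ e, M.D S e * y e := by
    rw [sum_comm, mul_sum]
    refine sum_congr rfl fun f _ => ?_
    rw [← sum_mul, h2]
    ring
  have h6 : ∑ e, ∑ f, M.A S e f = ((M.r : ℝ) - S.card - 1) * (((M.r : ℝ) - S.card) * M.b S) := by
    rw [sum_congr rfl fun e _ => h1 e, ← mul_sum, M.sum_D S (by omega)]
  rw [h3, h4, h5, h6]
  ring

/-- reverse Cauchy-Schwarz at one vector -/
def Mat.Rev (S : Finset E) : Prop := ∀ y : E → ℝ,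
  ((M.r : ℝ) - S.card) * M.b S * M.q S y ≤
    ((M.r : ℝ) - S.card - 1) * (∑ e, M.D S e * y e) ^ 2

theorem Mat.rev_of (S : Finset E) (hS : S.card + 1 ≤ M.r)
    (h : ∀ y : E → ℝ, ∃ t : ℝ, M.q S (fun e => y e - t) ≤ 0) : M.Rev S := by
  intro y
  obtain ⟨t, ht⟩ := h y
  rw [M.q_shift S hS] at ht
  set d : ℝ := (M.r : ℝ) - S.card with hd
  have hd1 : 1 ≤ d := by
    have : ((S.card + 1 : ℕ) : ℝ) ≤ M.r := by exact_mod_cast hS
    push_cast at this
    linarith
  set T := ∑ e, M.D S e * y e with hT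
  set b : ℝ := (M.b S : ℝ) with hb
  have hb0 : 0 ≤ b := Nat.cast_nonneg _
  have hdb : 0 ≤ d * b := mul_nonneg (by linarith) hb0
  have h1 : d * b * M.q S y ≤ d * b * (2 * t * ((d - 1) * T) - t ^ 2 * ((d - 1) * (d * b))) :=
    mul_le_mul_of_nonneg_left (by linarith) hdb
  have h2 : d * b * (2 * t * ((d - 1) * T) - t ^ 2 * ((d - 1) * (d * b))) =
      (d - 1) * (T ^ 2 - (T - t * (d * b)) ^ 2) := by ring
  have h3 : (d - 1) * (T ^ 2 - (T - t * (d * b)) ^ 2) ≤ (d - 1) * T ^ 2 := by
    apply mul_le_mul_of_nonneg_left _ (by linarith)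
    nlinarith [sq_nonneg (T - t * (d * b))]
  linarith

/-! ### The case of rank two -/

open Classical in
/-- the elements independent of `S` -/
noncomputable def Mat.L (S : Finset E) : Finset E :=
  univ.filter fun e => e ∉ S ∧ M.Ind (insert e S)

theorem Mat.mem_L {S : Finset E} {e : E} : e ∈ M.L S ↔ e ∉ S ∧ M.Ind (insert e S) := by
  classical
  simp [Mat.L]

open Classical in
/-- the parallel class -/
noncomputable def Mat.cls (S : Finset E) (e : E) : Finset E :=
  (M.L S).filter fun f => f = e ∨ ¬ M.Ind (insert f (insert e S))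

theorem Mat.mem_cls {S : Finset E} {e f : E} :
    f ∈ M.cls S e ↔ f ∈ M.L S ∧ (f = e ∨ ¬ M.Ind (insert f (insert e S))) := by
  classical
  simp [Mat.cls]

/-- being parallel is transitive -/
theorem Mat.par_trans {S : Finset E} {e f g : E} (hf : f ∈ M.L S) (hef : ¬ M.Ind (insert f (insert e S))) (hfg : ¬ M.Ind (insert g (insert f S))) (heg : e ≠ g)
    (he : e ∉ S) (hg : g ∉ S) : ¬ M.Ind (insert g (insert e S)) := by
  intro h
  rw [M.mem_L] at hf
  have hge : g ∉ insert e S := by
    rw [mem_insert, not_or]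
    exact ⟨heg.symm, hg⟩
  obtain ⟨x, hx, hxf, hI⟩ := M.aug hf.2 h (by
    rw [card_insert_of_notMem hge, card_insert_of_notMem he, card_insert_of_notMem hf.1]
    omega)
  rw [mem_insert, mem_insert] at hx
  rcases hx with rfl | rfl | hx
  · exact hfg hI
  · rw [insert_comm] at hI
    exact hef hI
  · exact hxf (mem_insert_of_mem hx)

theorem Mat.cls_eq_iff {S : Finset E} {e f : E} (he : e ∈ M.L S) (hf : f ∈ M.L S) :
    M.cls S e = M.cls S f ↔ (f = e ∨ ¬ M.Ind (insert f (insert e S))) := by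
  constructor
  · intro h
    have h1 : f ∈ M.cls S f := M.mem_cls.mpr ⟨hf, Or.inl rfl⟩
    rw [← h] at h1
    exact (M.mem_cls.mp h1).2
  · intro h
    have hcomm : ∀ x y : E, insert x (insert y S) = insert y (insert x S) := fun x y =>
      insert_comm _ _ _
    have key : ∀ e f : E, e ∈ M.L S → f ∈ M.L S → (f = e ∨ ¬ M.Ind (insert f (insert e S))) →
        ∀ g, g ∈ M.cls S e → g ∈ M.cls S f := by
      intro e f he hf h g hg
      rw [M.mem_cls] at hg ⊢
      refine ⟨hg.1, ?_⟩
      by_cases hgf : g = f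
      · exact Or.inl hgf
      · right
        rcases h with rfl | h
        · rcases hg.2 with h2 | h2
          · exact absurd h2 hgf
          · exact h2
        · rcases hg.2 with rfl | h2
          · rw [hcomm]
            exact h
          · have h3 : ¬ M.Ind (insert e (insert f S)) := by rw [hcomm]; exact h
            exact M.par_trans he h3 h2 (fun h => hgf h.symm)
              (M.mem_L.mp hf).1 (M.mem_L.mp hg.1).1
    apply Subset.antisymm
    · exact fun g hg => key e f he hf h g hg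
    · refine fun g hg => key f e hf he ?_ g hg
      rcases h with rfl | h
      · exact Or.inl rfl
      · right
        rw [hcomm]
        exact h

theorem sum_classes_nonneg {ι κ : Type} [DecidableEq κ] (L : Finset ι) (ρ : ι → κ)
    (z : ι → ℝ) : 0 ≤ ∑ e ∈ L, ∑ f ∈ L, if ρ e = ρ f then z e * z f else 0 := by
  classical
  have h1 : ∑ e ∈ L, ∑ f ∈ L, (if ρ e = ρ f then z e * z f else 0) =
      ∑ c ∈ L.image ρ, (∑ e ∈ L with ρ e = c, z e) ^ 2 := by
    rw [← sum_fiberwise_of_maps_to (g := ρ) (t := L.image ρ)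
      (fun e he => mem_image_of_mem ρ he)]
    refine sum_congr rfl fun c _ => ?_
    rw [sq, sum_mul]
    refine sum_congr rfl fun e he => ?_
    rw [mem_filter] at he
    rw [mul_sum, sum_filter]
    refine sum_congr rfl fun f _ => ?_
    rw [he.2]
    by_cases h : ρ f = c
    · rw [if_pos h, if_pos h.symm]
    · rw [if_neg h, if_neg fun h' => h h'.symm]
  rw [h1]
  exact sum_nonneg fun c _ => sq_nonneg _

theorem Mat.A_two {S : Finset E} (hS : S.card + 2 = M.r) (e f : E) :
    M.A S e f = if e ∈ M.L S ∧ f ∈ M.L S then (if M.cls S e = M.cls S f then 0 else 1) else 0 := by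
  by_cases h : 0 < M.A S e f
  · have h1 := M.A_pos_iff.mp h
    have he : e ∈ M.L S := M.mem_L.mpr ⟨h1.1, M.mono h1.2.2.2 (subset_insert _ _)⟩
    have hf : f ∈ M.L S := M.mem_L.mpr ⟨h1.2.1, M.mono h1.2.2.2
      (insert_subset_insert _ (subset_insert _ _))⟩
    rw [if_pos ⟨he, hf⟩, if_neg]
    · unfold Mat.A
      rw [if_pos ⟨h1.1, h1.2.1, h1.2.2.1⟩]
      have h2 : M.bases (insert f (insert e S)) = {insert f (insert e S)} := by
        have hc : (insert f (insert e S)).card = M.r := by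
          rw [card_insert_of_notMem, card_insert_of_notMem h1.1, ← hS]
          rw [mem_insert, not_or]
          exact ⟨fun h => h1.2.2.1 h.symm, h1.2.1⟩
        ext B
        rw [M.mem_bases, mem_singleton]
        constructor
        · rintro ⟨_, h3, h4⟩
          exact (eq_of_subset_of_card_le h4 (by omega)).symm
        · rintro rfl
          exact ⟨h1.2.2.2, hc, subset_rfl⟩
      rw [Mat.b, h2, card_singleton, Nat.cast_one]
    · rw [M.cls_eq_iff he hf]
      rintro (h2 | h2)
      · exact h1.2.2.1 h2.symm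
      · exact h2 h1.2.2.2
  · have h0 : M.A S e f = 0 := le_antisymm (not_lt.mp h) (M.A_nonneg S e f)
    rw [h0]
    by_cases hL : e ∈ M.L S ∧ f ∈ M.L S
    · rw [if_pos hL, if_pos]
      rw [M.cls_eq_iff hL.1 hL.2]
      by_contra hcon
      push Not at hcon
      apply h
      rw [M.A_pos_iff]
      exact ⟨(M.mem_L.mp hL.1).1, (M.mem_L.mp hL.2).1, fun h => hcon.1 h.symm, hcon.2⟩
    · rw [if_neg hL]

theorem Mat.q_two {S : Finset E} (hS : S.card + 2 = M.r) (z : E → ℝ) :
    M.q S z ≤ (∑ e ∈ M.L S, z e) ^ 2 := by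
  classical
  have h1 : M.q S z = (∑ e ∈ M.L S, z e) ^ 2 -
      ∑ e ∈ M.L S, ∑ f ∈ M.L S, if M.cls S e = M.cls S f then z e * z f else 0 := by
    rw [sq, sum_mul, ← sum_sub_distrib]
    unfold Mat.q
    rw [← sum_subset (subset_univ (M.L S))]
    · refine sum_congr rfl fun e he => ?_
      rw [mul_sum, ← sum_sub_distrib, ← sum_subset (subset_univ (M.L S))]
      · refine sum_congr rfl fun f hf => ?_
        rw [M.A_two hS, if_pos ⟨he, hf⟩]
        split_ifs <;> ring
      · intro f _ hf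
        rw [M.A_two hS, if_neg fun h => hf h.2]
        ring
    · intro e _ he
      apply sum_eq_zero
      intro f _
      rw [M.A_two hS, if_neg fun h => he h.1]
      ring
  rw [h1]
  have := sum_classes_nonneg (M.L S) (M.cls S) z
  linarith

theorem Mat.rev_two {S : Finset E} (hI : M.Ind S) (hS : S.card + 2 = M.r) : M.Rev S := by
  apply M.rev_of S (by omega)
  intro y
  have hne : (M.L S).Nonempty := by
    obtain ⟨B, hB, hBr⟩ := M.base
    obtain ⟨x, _, hx, hIx⟩ := M.aug hI hB (by omega)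
    exact ⟨x, M.mem_L.mpr ⟨hx, hIx⟩⟩
  have hc : (0 : ℝ) < (M.L S).card := by exact_mod_cast card_pos.mpr hne
  refine ⟨(∑ e ∈ M.L S, y e) / (M.L S).card, ?_⟩
  refine (M.q_two hS _).trans ?_
  rw [sum_sub_distrib, sum_const, nsmul_eq_mul, mul_div_cancel₀ _ hc.ne', sub_self]
  norm_num

/-! ### The induction step -/

/-- connectedness of the link -/
theorem Mat.connected {S : Finset E} (hS : S.card + 2 ≤ M.r) {w : E → ℝ}
    (hw : ∀ e f, 0 < M.A S e f → w e = w f) {e f : E} (he : e ∈ M.L S) (hf : f ∈ M.L S) :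
    w e = w f := by
  by_cases hef : e = f
  · rw [hef]
  have he' := M.mem_L.mp he
  have hf' := M.mem_L.mp hf
  by_cases hI : M.Ind (insert f (insert e S))
  · exact hw e f (M.A_pos_iff.mpr ⟨he'.1, hf'.1, hef, hI⟩)
  · obtain ⟨B, hB, hBr⟩ := M.base
    obtain ⟨g, _, hg, hIg⟩ := M.aug he'.2 hB (by rw [card_insert_of_notMem he'.1]; omega)
    rw [mem_insert, not_or] at hg
    have h1 : w e = w g := hw e g (M.A_pos_iff.mpr ⟨he'.1, hg.2, fun h => hg.1 h.symm, hIg⟩)
    have hgf : g ≠ f := by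
      rintro rfl
      exact hI hIg
    have h2 : M.Ind (insert g (insert f S)) := by
      by_contra hcon
      exact M.par_trans hf hI hcon (fun h => hg.1 h.symm) he'.1 hg.2 hIg
    have h3 : w f = w g := hw f g (M.A_pos_iff.mpr ⟨hf'.1, hg.2, hgf.symm, h2⟩)
    rw [h1, h3]

end Pool.Agent.Lib.MP_071ace_co.AK
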