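import Pool.Agent.Lib.MP_071ace_co.AK.RMat

/-!
# Isostatic graphs containing at most three given pairs
-/

set_option autoImplicit false

namespace Pool.Agent.Lib.MP_071ace_co.AK

open Finset Submodule AA

variable {V : Type} [Fintype V] [DecidableEq V]

/-- the number of isostatic graphs on `K` containing `F` -/
noncomputable def J (K : Finset V) (F : Finset (Sym2 V)) : ℕ := (isoF K F).card

theorem J_pos {K : Finset V} (hK : 3 ≤ K.card) : 0 < J K ∅ := by
  rw [J, ← RM_b hK, Mat.b_pos_iff]
  refine ⟨?_, ?_⟩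
  · obtain ⟨p, _⟩ := exists_generic V
    rw [coe_empty]
    exact ⟨p, linearIndepOn_empty ℝ (row p)⟩
  · rw [coe_empty]
    exact Set.empty_subset _

theorem J_zero {K : Finset V} {F : Finset (Sym2 V)} {e : Sym2 V} (he : e ∈ F)
    (h : e ∉ pairs K) : J K F = 0 := by
  rw [J, card_eq_zero, eq_empty_iff_forall_notMem]
  intro B hB
  rw [mem_isoF] at hB
  exact h (hB.1.2 (mem_coe.mpr (hB.2.2 he)))

theorem J_one {K : Finset V} (hK : 3 ≤ K.card) (e : Sym2 V) :
    K.card * J K {e} ≤ 6 * J K ∅ := by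
  classical
  by_cases he : e ∈ pairs K
  · obtain ⟨a, ha, b, hb, hab, rfl⟩ := he
    have h1 := (RM K hK).sum_b ∅
    have h2 : ∀ g, (RM K hK).b (insert g ∅) = J K {g} := fun g => by
      rw [RM_b, J]
      rfl
    rw [sum_congr rfl fun g _ => h2 g, RM_b, card_empty, Nat.sub_zero] at h1
    have hr : (RM K hK).r = 3 * K.card - 6 := rfl
    rw [hr] at h1
    have h3 : ∑ g ∈ K.offDiag.image (fun q => s(q.1, q.2)), J K {g} ≤
        ∑ g ∈ univ \ ∅, J K {g} := by
      apply sum_le_sum_of_subset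
      rw [sdiff_empty]
      exact subset_univ _
    have h4 : ∀ g ∈ K.offDiag.image (fun q => s(q.1, q.2)), J K {g} = J K {s(a, b)} := by
      intro g hg
      obtain ⟨⟨c, d⟩, hcd, rfl⟩ := mem_image.mp hg
      rw [mem_offDiag] at hcd
      exact (iso_pair ha hb hcd.1 hcd.2.1 hab hcd.2.2).symm
    have hoff : (K.offDiag.image fun q => s(q.1, q.2)).card = K.card.choose 2 :=
      Sym2.card_image_offDiag K
    rw [sum_congr rfl h4, sum_const, smul_eq_mul, hoff, h1] at h3
    have h5 : K.card.choose 2 * 2 = K.card * (K.card - 1) := by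
      rw [Nat.choose_two_right]
      exact Nat.div_mul_cancel (Nat.even_mul_pred_self K.card).two_dvd
    set c := J K {s(a, b)} with hc
    have hJ : J K ∅ = (isoF K ∅).card := rfl
    rw [← hJ] at h3
    obtain ⟨m, hm⟩ : ∃ m, K.card = m + 3 := ⟨K.card - 3, by omega⟩
    rw [hm] at h3 h5 ⊢
    have h6 : m + 3 - 1 = m + 2 := rfl
    rw [h6] at h5
    have h7 : 3 * (m + 3) - 6 = 3 * m + 3 := by omega
    rw [h7] at h3
    have h8 : (m + 3) * (m + 2) * c ≤ 2 * ((3 * m + 3) * J K ∅) := by
      calc (m + 3) * (m + 2) * c = 2 * ((m + 3).choose 2 * c) := by rw [← h5]; ring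
        _ ≤ _ := Nat.mul_le_mul_left _ h3
    have h9 : (m + 2) * ((m + 3) * c) ≤ (m + 2) * (6 * J K ∅) := by
      calc (m + 2) * ((m + 3) * c) = (m + 3) * (m + 2) * c := by ring
        _ ≤ 2 * ((3 * m + 3) * J K ∅) := h8
        _ ≤ _ := by nlinarith [Nat.zero_le (J K ∅)]
    exact Nat.le_of_mul_le_mul_left h9 (by omega)
  · rw [J_zero (mem_singleton_self e) he, mul_zero]
    exact Nat.zero_le _

theorem J_corr {K : Finset V} (hK : 3 ≤ K.card) {S : Finset (Sym2 V)} {e f : Sym2 V}
    (he : e ∉ S) (hf : f ∉ S) (hef : e ≠ f) :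
    J K S * J K (insert f (insert e S)) ≤ 2 * (J K (insert e S) * J K (insert f S)) := by
  have := (RM K hK).corr he hf hef
  simp only [RM_b] at this
  exact this

theorem J_two {K : Finset V} (hK : 3 ≤ K.card) {e f : Sym2 V} (hef : e ≠ f) :
    K.card ^ 2 * J K (insert f {e}) ≤ 72 * J K ∅ := by
  have h1 := J_corr hK (notMem_empty e) (notMem_empty f) hef
  have h2 := J_one hK e
  have h3 := J_one hK f
  have h4 : J K ∅ * (K.card ^ 2 * J K (insert f {e})) ≤ J K ∅ * (72 * J K ∅) := by
    calc J K ∅ * (K.card ^ 2 * J K (insert f {e}))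
        = K.card ^ 2 * (J K ∅ * J K (insert f (insert e ∅))) := by
          rw [show (insert e (∅ : Finset (Sym2 V))) = {e} from rfl]
          ring
      _ ≤ K.card ^ 2 * (2 * (J K (insert e ∅) * J K (insert f ∅))) := Nat.mul_le_mul_left _ h1
      _ = 2 * ((K.card * J K {e}) * (K.card * J K {f})) := by
          rw [show (insert e (∅ : Finset (Sym2 V))) = {e} from rfl,
            show (insert f (∅ : Finset (Sym2 V))) = {f} from rfl]
          ring
      _ ≤ 2 * ((6 * J K ∅) * (6 * J K ∅)) := Nat.mul_le_mul_left _ (Nat.mul_le_mul h2 h3)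
      _ = _ := by ring
  exact Nat.le_of_mul_le_mul_left h4 (J_pos hK)

theorem J_three {K : Finset V} (hK : 3 ≤ K.card) {e f g : Sym2 V} (hef : e ≠ f) (heg : e ≠ g)
    (hfg : f ≠ g) : K.card ^ 3 * J K (insert g (insert f {e})) ≤ 1728 * J K ∅ := by
  have h0 := J_pos hK
  by_cases hz : J K {e} = 0
  · have h1 : J K (insert g (insert f {e})) ≤ J K {e} := by
      apply card_le_card
      intro B hB
      rw [mem_isoF] at hB ⊢
      exact ⟨hB.1, hB.2.1, ((subset_insert _ _).trans (subset_insert _ _)).trans hB.2.2⟩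
    have h2 : J K (insert g (insert f {e})) = 0 := by omega
    rw [h2, mul_zero]
    exact Nat.zero_le _
  · have hpos : 0 < J K {e} := Nat.pos_of_ne_zero hz
    have h1 := J_corr hK (S := {e}) (e := f) (f := g)
      (fun h => hef (mem_singleton.mp h).symm) (fun h => heg (mem_singleton.mp h).symm) hfg
    have h2 := J_corr hK (notMem_empty e) (notMem_empty f) hef
    have h3 := J_corr hK (notMem_empty e) (notMem_empty g) heg
    rw [show (insert e (∅ : Finset (Sym2 V))) = {e} from rfl] at h2 h3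
    rw [show (insert f (∅ : Finset (Sym2 V))) = {f} from rfl] at h2
    rw [show (insert g (∅ : Finset (Sym2 V))) = {g} from rfl] at h3
    have he := J_one hK e
    have hf := J_one hK f
    have hg := J_one hK g
    set a := J K ∅
    set x := J K {e}
    set y := J K {f}
    set z := J K {g}
    set u := J K (insert f {e})
    set v := J K (insert g {e})
    set w := J K (insert g (insert f {e}))
    set m := K.card
    -- h1 : x * w ≤ 2 * (u * v), h2 : a * u ≤ 2 * (x * y), h3 : a * v ≤ 2 * (x * z)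
    have h4 : (x * a ^ 2) * (m ^ 3 * w) ≤ (x * a ^ 2) * (1728 * a) := by
      calc (x * a ^ 2) * (m ^ 3 * w) = m ^ 3 * a ^ 2 * (x * w) := by ring
        _ ≤ m ^ 3 * a ^ 2 * (2 * (u * v)) := Nat.mul_le_mul_left _ h1
        _ = 2 * m ^ 3 * ((a * u) * (a * v)) := by ring
        _ ≤ 2 * m ^ 3 * ((2 * (x * y)) * (2 * (x * z))) :=
            Nat.mul_le_mul_left _ (Nat.mul_le_mul h2 h3)
        _ = 8 * x * ((m * x) * ((m * y) * (m * z))) := by ring
        _ ≤ 8 * x * ((6 * a) * ((6 * a) * (6 * a))) :=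
            Nat.mul_le_mul_left _ (Nat.mul_le_mul he (Nat.mul_le_mul hf hg))
        _ = _ := by ring
    exact Nat.le_of_mul_le_mul_left h4 (Nat.mul_pos hpos (pow_pos h0 2))

/-- at most three given pairs -/
theorem J_few {K : Finset V} (hK : 3 ≤ K.card) {F : Finset (Sym2 V)} (hF : F.card ≤ 3) :
    K.card ^ F.card * J K F ≤ 1728 * J K ∅ := by
  have h0 := J_pos hK
  obtain h | h | h | h : F.card = 0 ∨ F.card = 1 ∨ F.card = 2 ∨ F.card = 3 := by omega
  · rw [card_eq_zero] at h
    rw [h, card_empty, pow_zero, one_mul]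
    omega
  · obtain ⟨e, rfl⟩ := card_eq_one.mp h
    rw [card_singleton, pow_one]
    have := J_one hK e
    omega
  · obtain ⟨e, f, hef, rfl⟩ := card_eq_two.mp h
    rw [card_pair hef]
    have := J_two hK (e := f) (f := e) hef.symm
    omega
  · obtain ⟨e, f, g, hef, heg, hfg, rfl⟩ := card_eq_three.mp h
    rw [h]
    exact J_three hK (e := g) (f := f) (g := e) hfg.symm heg.symm hef.symm

end Pool.Agent.Lib.MP_071ace_co.AK
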