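import Pool.Agent.Lib.MP_071ace_co.AK.Typ

/-!
# Many independent graphs with `k` degrees of freedom
-/

set_option autoImplicit false

namespace Pool.Agent.Lib.MP_071ace_co.AK

open Finset Submodule AA

section

variable {V : Type} [Fintype V] [DecidableEq V]

/-- an isostatic graph on `K` and two edges at some vertices outside -/
def ext (B : Finset (Sym2 V)) (f : V → Finset V) (T : Finset V) : Finset (Sym2 V) :=
  B ∪ T.biUnion fun v => starF v (f v)

theorem mem_ext {B : Finset (Sym2 V)} {f : V → Finset V} {T : Finset V} {e : Sym2 V} :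
    e ∈ ext B f T ↔ e ∈ B ∨ ∃ v ∈ T, ∃ x ∈ f v, s(v, x) = e := by
  rw [ext, mem_union, mem_biUnion]
  constructor
  · rintro (h | ⟨v, hv, h⟩)
    · exact Or.inl h
    · obtain ⟨x, hx, h⟩ := mem_image.mp h
      exact Or.inr ⟨v, hv, x, hx, h⟩
  · rintro (h | ⟨v, hv, x, hx, h⟩)
    · exact Or.inl h
    · exact Or.inr ⟨v, hv, mem_image.mpr ⟨x, hx, h⟩⟩

theorem ext_props {K : Finset V} {B : Finset (Sym2 V)} {f : V → Finset V}
    (hB : Indep (B : Set (Sym2 V))) (hBK : (B : Set (Sym2 V)) ⊆ pairs K) (hf : f ∈ PF K)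
    (T : Finset V) : (∀ v ∈ T, v ∉ K) → Indep (ext B f T : Set (Sym2 V)) ∧
      (ext B f T).card = B.card + 2 * T.card := by
  classical
  obtain ⟨p, hp⟩ := exists_generic V
  rw [mem_PF] at hf
  induction T using Finset.induction_on with
  | empty =>
    intro _
    have : ext B f ∅ = B := by
      rw [ext, biUnion_empty, union_empty]
    rw [this, card_empty]
    exact ⟨hB, rfl⟩
  | insert v T hv ih =>
    intro hT
    obtain ⟨h1, h2⟩ := ih fun x hx => hT x (mem_insert_of_mem hx)
    have hvK := hT v (mem_insert_self _ _)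
    obtain ⟨hfK, hfc⟩ := hf.2 v hvK
    have hins : ext B f (insert v T) = ext B f T ∪ starF v (f v) := by
      rw [ext, biUnion_insert, ext, union_assoc]
      congr 1
      exact union_comm _ _
    have hav : Avoids (ext B f T : Set (Sym2 V)) v := by
      intro e he hve
      rw [mem_coe, mem_ext] at he
      rcases he with he | ⟨u, hu, x, hx, rfl⟩
      · exact pairs_avoids hvK e (hBK (mem_coe.mpr he)) hve
      · rcases Sym2.mem_iff.mp hve with h | h
        · exact hv (h ▸ hu)
        · exact hvK (h ▸ (hf.2 u (hT u (mem_insert_of_mem hu))).1 hx)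
    have hvf : v ∉ f v := fun h => hvK (hfK h)
    have h3 := hp.zero_ext hav h1 hvf (by omega)
    rw [hins, coe_union, coe_starF]
    refine ⟨h3, ?_⟩
    rw [card_union_of_disjoint, h2, card_insert_of_notMem hv]
    · have h4 : (starF v (f v)).card = 2 := by
        rw [← Set.ncard_coe_finset, coe_starF, ncard_star, hfc]
      omega
    · rw [disjoint_left]
      intro e he h
      obtain ⟨x, _, rfl⟩ := mem_image.mp h
      exact hav _ (mem_coe.mpr he) (Sym2.mem_mk_left _ _)

/-- the neighbours of a vertex outside `K` -/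
theorem nb_ext_out {K : Finset V} {B : Finset (Sym2 V)} {f : V → Finset V}
    (hBK : (B : Set (Sym2 V)) ⊆ pairs K) (hf : f ∈ PF K) {v : V} (hv : v ∉ K) :
    nb (ext B f (univ \ K) : Set (Sym2 V)) v = f v := by
  rw [mem_PF] at hf
  ext x
  rw [mem_nb, mem_coe, mem_ext]
  constructor
  · rintro (h | ⟨u, hu, y, hy, h⟩)
    · exact absurd (Sym2.mem_mk_left _ _) (pairs_avoids hv _ (hBK (mem_coe.mpr h)))
    · rcases Sym2.eq_iff.mp h with ⟨rfl, rfl⟩ | ⟨rfl, rfl⟩
      · exact hy
      · exact absurd ((hf.2 u (mem_sdiff.mp hu).2).1 hy) hv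
  · intro hx
    exact Or.inr ⟨v, mem_sdiff.mpr ⟨mem_univ _, hv⟩, x, hx, rfl⟩

/-- a vertex of `K` has degree at least three -/
theorem nb_ext_in {K : Finset V} (hK : 4 ≤ K.card) {B : Finset (Sym2 V)} (f : V → Finset V)
    (hB : B ∈ isoF K ∅) {v : V} (hv : v ∈ K) :
    3 ≤ (nb (ext B f (univ \ K) : Set (Sym2 V)) v).card := by
  rw [mem_isoF] at hB
  obtain ⟨⟨hI, hBK⟩, hBc, _⟩ := hB
  have h1 : (K.erase v).card + 1 = K.card := card_erase_add_one hv
  have h2 := remove (notMem_erase v K) (by omega) hI (by rw [insert_erase hv]; exact hBK)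
    (by rw [Set.ncard_coe_finset]; omega)
  refine h2.2.1.trans (card_le_card ?_)
  intro y hy
  rw [mem_nb, mem_coe] at hy ⊢
  exact mem_ext.mpr (Or.inl hy)

/-- recovering the parts -/
theorem ext_inj {K K' : Finset V} (hK : 4 ≤ K.card) (hK' : 4 ≤ K'.card)
    {B B' : Finset (Sym2 V)} {f f' : V → Finset V} (hB : B ∈ isoF K ∅) (hB' : B' ∈ isoF K' ∅)
    (hf : f ∈ PF K) (hf' : f' ∈ PF K') (h : ext B f (univ \ K) = ext B' f' (univ \ K')) :
    K = K' ∧ B = B' ∧ f = f' := by
  have hBm := mem_isoF.mp hB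
  have hBm' := mem_isoF.mp hB'
  have hmem : ∀ {K : Finset V} {B : Finset (Sym2 V)} {f : V → Finset V}, 4 ≤ K.card →
      B ∈ isoF K ∅ → f ∈ PF K → ∀ v, v ∈ K ↔
        (nb (ext B f (univ \ K) : Set (Sym2 V)) v).card ≠ 2 := by
    intro K B f hK hB hf v
    constructor
    · intro hv h2
      have := nb_ext_in hK f hB hv
      omega
    · intro h2
      by_contra hv
      apply h2
      rw [nb_ext_out (mem_isoF.mp hB).1.2 hf hv]
      exact ((mem_PF.mp hf).2 v hv).2
  have hKK : K = K' := by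
    ext v
    rw [hmem hK hB hf, hmem hK' hB' hf', h]
  subst hKK
  refine ⟨rfl, ?_, ?_⟩
  · have key : ∀ {B : Finset (Sym2 V)} {f : V → Finset V}, B ∈ isoF K ∅ → f ∈ PF K →
        ∀ e, e ∈ B ↔ e ∈ ext B f (univ \ K) ∧ ∀ v ∈ e, v ∈ K := by
      intro B f hB hf e
      rw [mem_ext]
      constructor
      · intro he
        refine ⟨Or.inl he, fun v hv => ?_⟩
        obtain ⟨a, ha, b, hb, _, rfl⟩ := (mem_isoF.mp hB).1.2 (mem_coe.mpr he)
        rcases Sym2.mem_iff.mp hv with rfl | rfl
        · exact ha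
        · exact hb
      · rintro ⟨he | ⟨v, hv, x, _, rfl⟩, hall⟩
        · exact he
        · exact absurd (hall v (Sym2.mem_mk_left _ _)) (mem_sdiff.mp hv).2
    ext e
    rw [key hB hf, key hB' hf', h]
  · funext v
    by_cases hv : v ∈ K
    · rw [(mem_PF.mp hf).1 v hv, (mem_PF.mp hf').1 v hv]
    · rw [← nb_ext_out hBm.1.2 hf hv, ← nb_ext_out hBm'.1.2 hf' hv, h]

end

open Classical in
/-- independent sets of pairs with `k` degrees of freedom -/
noncomputable def indk (n k : ℕ) : Finset (SimpleGraph (Fin n)) :=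
  (indset n).filter fun G => G.edgeSet.ncard + 6 + k = 3 * n

open Classical in
theorem indk_ge {n k : ℕ} (hn : k + 4 ≤ n) :
    n.choose k * (Jn n (n - k) * (n - k).choose 2 ^ k) ≤ (indk n k).card := by
  set T := (powersetCard (n - k) (univ : Finset (Fin n))).sigma fun K =>
    (isoF K ∅) ×ˢ PF K with hT
  have h1 : T.card = n.choose k * (Jn n (n - k) * (n - k).choose 2 ^ k) := by
    rw [hT, card_sigma]
    have h2 : ∀ K ∈ powersetCard (n - k) (univ : Finset (Fin n)),
        ((isoF K ∅) ×ˢ PF K).card = Jn n (n - k) * (n - k).choose 2 ^ k := by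
      intro K hK
      have hKc := (mem_powersetCard.mp hK).2
      have hO : (univ \ K).card = k := by
        rw [card_sdiff_of_subset (subset_univ _), card_univ, Fintype.card_fin]
        omega
      rw [card_product, card_PF, hO, hKc]
      congr 1
      have := J_eq K
      rw [hKc] at this
      exact this
    rw [sum_congr rfl h2, sum_const, smul_eq_mul, card_powersetCard, card_univ,
      Fintype.card_fin, Nat.choose_symm (by omega)]
  rw [← h1]
  refine card_le_card_of_injOn (fun q => SimpleGraph.fromEdgeSet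
    (ext q.2.1 q.2.2 (univ \ q.1) : Set (Sym2 (Fin n)))) ?_ ?_
  · rintro ⟨K, B, f⟩ hq
    rw [mem_coe, hT, mem_sigma, mem_powersetCard, mem_product] at hq
    obtain ⟨⟨_, hKc⟩, hB, hf⟩ := hq
    simp only at hKc hB hf
    have hBm := mem_isoF.mp hB
    obtain ⟨h2, h3⟩ := ext_props hBm.1.1 hBm.1.2 hf (univ \ K)
      fun v hv => (mem_sdiff.mp hv).2
    have hed := edgeSet_from (F := (ext B f (univ \ K) : Set (Sym2 (Fin n))))
      fun x => h2.not_loop x
    rw [mem_coe, indk, mem_filter, mem_indset, Independent, hed]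
    refine ⟨h2, ?_⟩
    rw [Set.ncard_coe_finset, h3]
    have hO : (univ \ K).card = k := by
      rw [card_sdiff_of_subset (subset_univ _), card_univ, Fintype.card_fin]
      omega
    have := hBm.2.1
    rw [hO]
    omega
  · rintro ⟨K, B, f⟩ hq ⟨K', B', f'⟩ hq' h
    rw [mem_coe, hT, mem_sigma, mem_powersetCard, mem_product] at hq hq'
    obtain ⟨⟨_, hKc⟩, hB, hf⟩ := hq
    obtain ⟨⟨_, hKc'⟩, hB', hf'⟩ := hq'
    simp only at hKc hB hf hKc' hB' hf' h
    have hBm := mem_isoF.mp hB
    have hBm' := mem_isoF.mp hB'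
    have h2 := (ext_props hBm.1.1 hBm.1.2 hf (univ \ K) fun v hv => (mem_sdiff.mp hv).2).1
    have h2' := (ext_props hBm'.1.1 hBm'.1.2 hf' (univ \ K') fun v hv => (mem_sdiff.mp hv).2).1
    have hed := edgeSet_from (F := (ext B f (univ \ K) : Set (Sym2 (Fin n))))
      fun x => h2.not_loop x
    have hed' := edgeSet_from (F := (ext B' f' (univ \ K') : Set (Sym2 (Fin n))))
      fun x => h2'.not_loop x
    have h3 : (ext B f (univ \ K) : Set (Sym2 (Fin n))) =
        (ext B' f' (univ \ K') : Set (Sym2 (Fin n))) := by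
      rw [← hed, ← hed', h]
    rw [coe_inj] at h3
    obtain ⟨e1, e2, e3⟩ := ext_inj (by omega) (by omega) hB hB' hf hf' h3
    subst e1 e2 e3
    rfl

theorem pow_le_choose {n k : ℕ} (hn : 2 * k + 4 ≤ n) :
    n ^ (3 * k) ≤ 16 ^ k * k.factorial * (n.choose k * (n - k).choose 2 ^ k) := by
  have h1 : n ^ k ≤ 2 ^ k * (k.factorial * n.choose k) := by
    have h2 := Nat.pow_sub_le_descFactorial n k
    rw [Nat.descFactorial_eq_factorial_mul_choose] at h2
    calc n ^ k ≤ (2 * (n + 1 - k)) ^ k := Nat.pow_le_pow_left (by omega) k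
      _ = 2 ^ k * (n + 1 - k) ^ k := mul_pow _ _ _
      _ ≤ _ := Nat.mul_le_mul_left _ h2
  have h3 : n ^ 2 ≤ 8 * (n - k).choose 2 := by
    have h2 := Nat.pow_sub_le_descFactorial (n - k) 2
    rw [Nat.descFactorial_eq_factorial_mul_choose] at h2
    have h4 : (2 : ℕ).factorial = 2 := rfl
    rw [h4] at h2
    calc n ^ 2 ≤ (2 * (n - k + 1 - 2)) ^ 2 := Nat.pow_le_pow_left (by omega) 2
      _ = 4 * (n - k + 1 - 2) ^ 2 := by ring
      _ ≤ 4 * (2 * (n - k).choose 2) := Nat.mul_le_mul_left _ h2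
      _ = _ := by ring
  calc n ^ (3 * k) = n ^ k * (n ^ 2) ^ k := by
        rw [← pow_mul, ← pow_add]
        congr 1
        ring
    _ ≤ (2 ^ k * (k.factorial * n.choose k)) * (8 * (n - k).choose 2) ^ k :=
        Nat.mul_le_mul h1 (Nat.pow_le_pow_left h3 k)
    _ = _ := by
        rw [mul_pow, show (16 : ℕ) = 2 * 8 by norm_num, mul_pow]
        ring

end Pool.Agent.Lib.MP_071ace_co.AK
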