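import Pool.Agent.Lib.MP_071ace_co.AK.Lower

/-!
# Almost all independent graphs with `k` degrees of freedom
-/

set_option autoImplicit false

namespace Pool.Agent.Lib.MP_071ace_co.AK

open Finset Submodule AA

/-- A positive proportion of the independent graphs has `k` degrees of freedom. -/
theorem positive (k : ℕ) : ∃ C N : ℕ, ∀ n ≥ N, (indset n).card ≤ C * (indk n k).card := by
  classical
  obtain ⟨N, hN⟩ := main_finset 8 (by norm_num)
  set C3 := ∑ o ∈ range 9, 2 ^ (o ^ 2) * 22014720 ^ (o + k) with hC3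
  refine ⟨2 * (C3 * (16 ^ k * k.factorial)), N + (2 * (8 + k) + 4), fun n hn => ?_⟩
  have h1 := hN n (by omega)
  have h2 : ((indset n).filter fun G => ∃ K, Typical 8 G K).card +
      ((indset n).filter fun G => ¬ ∃ K, Typical 8 G K).card = (indset n).card :=
    card_filter_add_card_filter_not _
  have h3 := typ_le 8 n (by omega)
  have h4 : ∑ o ∈ range (8 + 1), 2 ^ (o ^ 2) * (n ^ (3 * o) * Jn n (n - o)) ≤
      C3 * (n ^ (3 * k) * Jn n (n - k)) := by
    rw [hC3, sum_mul]
    apply sum_le_sum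
    intro o ho
    rw [mem_range] at ho
    rw [mul_assoc]
    exact Nat.mul_le_mul_left _ (Jn_compare o k n (by omega))
  have h5 : n ^ (3 * k) * Jn n (n - k) ≤ (16 ^ k * k.factorial) * (indk n k).card := by
    calc n ^ (3 * k) * Jn n (n - k)
        ≤ (16 ^ k * k.factorial * (n.choose k * (n - k).choose 2 ^ k)) * Jn n (n - k) :=
          Nat.mul_le_mul_right _ (pow_le_choose (by omega))
      _ = (16 ^ k * k.factorial) * (n.choose k * (Jn n (n - k) * (n - k).choose 2 ^ k)) := by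
          ring
      _ ≤ _ := Nat.mul_le_mul_left _ (indk_ge (by omega))
  have h6 : C3 * (n ^ (3 * k) * Jn n (n - k)) ≤
      C3 * ((16 ^ k * k.factorial) * (indk n k).card) := Nat.mul_le_mul_left _ h5
  have h7 : 2 * (C3 * (16 ^ k * k.factorial)) * (indk n k).card =
      2 * (C3 * ((16 ^ k * k.factorial) * (indk n k).card)) := by ring
  rw [h7]
  omega

theorem indk_coe (n k : ℕ) : ((indk n k : Finset _) : Set (SimpleGraph (Fin n))) =
    {G | Independent G ∧ G.edgeSet.ncard + 6 + k = 3 * n} := by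
  classical
  ext G
  rw [mem_coe, indk, mem_filter, mem_indset]
  rfl

/-- The typical structure of the independent graphs whose number `3 n - 6 - |E|` of degrees of
freedom is in `D`. -/
theorem main (D : Set ℕ) (hD : D.Nonempty) : ∃ C : ℕ, ∀ s ≥ 1, ∃ N : ℕ, ∀ n ≥ N,
    s * {G : SimpleGraph (Fin n) | (Independent G ∧ 3 * n - 6 - G.edgeSet.ncard ∈ D) ∧
      ¬ ∃ K, Typical s G K}.ncard ≤
      C * {G : SimpleGraph (Fin n) | Independent G ∧ 3 * n - 6 - G.edgeSet.ncard ∈ D}.ncard := by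
  classical
  obtain ⟨k, hk⟩ := hD
  obtain ⟨C, N0, hC⟩ := positive k
  refine ⟨4 * C, fun s hs => ?_⟩
  obtain ⟨N, hN⟩ := main_finset s hs
  refine ⟨N + N0, fun n hn => ?_⟩
  have h1 := hN n (by omega)
  have h2 := hC n (by omega)
  have h3 : {G : SimpleGraph (Fin n) | (Independent G ∧ 3 * n - 6 - G.edgeSet.ncard ∈ D) ∧
      ¬ ∃ K, Typical s G K}.ncard ≤
      ((indset n).filter fun G => ¬ ∃ K, Typical s G K).card := by
    rw [← Set.ncard_coe_finset, filter_coe]
    apply Set.ncard_le_ncard _ (Set.toFinite _)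
    rintro G ⟨⟨hG, _⟩, hK⟩
    exact ⟨hG, hK⟩
  have h4 : (indk n k).card ≤
      {G : SimpleGraph (Fin n) | Independent G ∧ 3 * n - 6 - G.edgeSet.ncard ∈ D}.ncard := by
    rw [← Set.ncard_coe_finset, indk_coe]
    apply Set.ncard_le_ncard _ (Set.toFinite _)
    rintro G ⟨hG, hc⟩
    refine ⟨hG, ?_⟩
    have : 3 * n - 6 - G.edgeSet.ncard = k := by omega
    rw [this]
    exact hk
  calc s * {G : SimpleGraph (Fin n) | (Independent G ∧ 3 * n - 6 - G.edgeSet.ncard ∈ D) ∧
      ¬ ∃ K, Typical s G K}.ncard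
      ≤ s * ((indset n).filter fun G => ¬ ∃ K, Typical s G K).card := Nat.mul_le_mul_left _ h3
    _ ≤ 4 * (indset n).card := h1
    _ ≤ 4 * (C * (indk n k).card) := Nat.mul_le_mul_left _ h2
    _ ≤ 4 * (C * {G : SimpleGraph (Fin n) |
        Independent G ∧ 3 * n - 6 - G.edgeSet.ncard ∈ D}.ncard) :=
        Nat.mul_le_mul_left _ (Nat.mul_le_mul_left _ h4)
    _ = _ := by ring

end Pool.Agent.Lib.MP_071ace_co.AK
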