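import Mathlib

/-!
# Finite matroids by independent sets and the number of bases
-/

set_option autoImplicit false

namespace Pool.Agent.Lib.MP_071ace_co.AK

open Finset

/-- a matroid of rank `r` on a finite type given by its independent sets -/
structure Mat (E : Type) [DecidableEq E] where
  Ind : Finset E → Prop
  mono : ∀ {A B : Finset E}, Ind B → A ⊆ B → Ind A
  aug : ∀ {A B : Finset E}, Ind A → Ind B → A.card < B.card → ∃ x ∈ B, x ∉ A ∧ Ind (insert x A)
  r : ℕ
  base : ∃ B, Ind B ∧ B.card = r
  le : ∀ A, Ind A → A.card ≤ r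

variable {E : Type} [Fintype E] [DecidableEq E] (M : Mat E)

open Classical in
/-- the bases containing `S` -/
noncomputable def Mat.bases (S : Finset E) : Finset (Finset E) :=
  univ.filter fun B => M.Ind B ∧ B.card = M.r ∧ S ⊆ B

theorem Mat.mem_bases {S B : Finset E} :
    B ∈ M.bases S ↔ M.Ind B ∧ B.card = M.r ∧ S ⊆ B := by
  classical
  simp [Mat.bases]

/-- the number of bases containing `S` -/
noncomputable def Mat.b (S : Finset E) : ℕ := (M.bases S).card

theorem Mat.exists_base_sup (n : ℕ) : ∀ S : Finset E, M.Ind S → S.card + n = M.r →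
    ∃ B, M.Ind B ∧ B.card = M.r ∧ S ⊆ B := by
  induction n with
  | zero =>
    intro S hS hn
    exact ⟨S, hS, hn, subset_rfl⟩
  | succ n ih =>
    intro S hS hn
    obtain ⟨B, hB, hBr⟩ := M.base
    obtain ⟨x, _, hx, hI⟩ := M.aug hS hB (by omega)
    obtain ⟨B', h1, h2, h3⟩ := ih (insert x S) hI (by rw [card_insert_of_notMem hx]; omega)
    exact ⟨B', h1, h2, (subset_insert _ _).trans h3⟩

theorem Mat.b_pos_iff (S : Finset E) : 0 < M.b S ↔ M.Ind S := by
  constructor
  · intro h
    obtain ⟨B, hB⟩ := card_pos.mp h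
    rw [M.mem_bases] at hB
    exact M.mono hB.1 hB.2.2
  · intro h
    have h1 := M.le S h
    obtain ⟨B, hB⟩ := M.exists_base_sup (M.r - S.card) S h (by omega)
    exact card_pos.mpr ⟨B, M.mem_bases.mpr hB⟩

theorem Mat.b_eq_zero {S : Finset E} (h : ¬ M.Ind S) : M.b S = 0 := by
  by_contra h1
  exact h ((M.b_pos_iff S).mp (Nat.pos_of_ne_zero h1))

/-- the bases containing one more element -/
theorem Mat.sum_b (S : Finset E) :
    ∑ g ∈ univ \ S, M.b (insert g S) = (M.r - S.card) * M.b S := by
  classical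
  have h1 : ∀ g, M.b (insert g S) = ∑ B ∈ M.bases S, if g ∈ B then 1 else 0 := by
    intro g
    rw [← card_filter, Mat.b]
    congr 1
    ext B
    rw [mem_filter, M.mem_bases, M.mem_bases, insert_subset_iff]
    tauto
  rw [sum_congr rfl fun g _ => h1 g, sum_comm]
  have h2 : ∀ B ∈ M.bases S, (∑ g ∈ univ \ S, if g ∈ B then 1 else 0) = M.r - S.card := by
    intro B hB
    rw [M.mem_bases] at hB
    rw [← card_filter]
    have h3 : (univ \ S).filter (fun g => g ∈ B) = B \ S := by
      ext g
      simp [and_comm]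
    rw [h3, card_sdiff_of_subset hB.2.2, hB.2.1]
  rw [sum_congr rfl h2, sum_const, smul_eq_mul, mul_comm]
  rfl

/-- the link matrix -/
noncomputable def Mat.A (S : Finset E) (e f : E) : ℝ :=
  if e ∉ S ∧ f ∉ S ∧ e ≠ f then (M.b (insert f (insert e S)) : ℝ) else 0

/-- the link weights -/
noncomputable def Mat.D (S : Finset E) (e : E) : ℝ :=
  if e ∉ S then (M.b (insert e S) : ℝ) else 0

theorem Mat.A_nonneg (S : Finset E) (e f : E) : 0 ≤ M.A S e f := by
  unfold Mat.A
  split_ifs
  · exact Nat.cast_nonneg _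
  · exact le_rfl

theorem Mat.D_nonneg (S : Finset E) (e : E) : 0 ≤ M.D S e := by
  unfold Mat.D
  by_cases h : e ∉ S
  · rw [if_pos h]
    exact Nat.cast_nonneg _
  · rw [if_neg h]

theorem Mat.A_comm (S : Finset E) (e f : E) : M.A S e f = M.A S f e := by
  unfold Mat.A
  by_cases h : e ∉ S ∧ f ∉ S ∧ e ≠ f
  · rw [if_pos h, if_pos ⟨h.2.1, h.1, h.2.2.symm⟩, insert_comm]
  · rw [if_neg h, if_neg fun h' => h ⟨h'.2.1, h'.1, h'.2.2.symm⟩]

theorem Mat.A_pos_iff {S : Finset E} {e f : E} :
    0 < M.A S e f ↔ e ∉ S ∧ f ∉ S ∧ e ≠ f ∧ M.Ind (insert f (insert e S)) := by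
  unfold Mat.A
  by_cases h : e ∉ S ∧ f ∉ S ∧ e ≠ f
  · rw [if_pos h, Nat.cast_pos, M.b_pos_iff]
    tauto
  · rw [if_neg h]
    constructor
    · intro h'
      exact absurd h' (lt_irrefl _)
    · intro h'
      exact absurd ⟨h'.1, h'.2.1, h'.2.2.1⟩ h

theorem Mat.D_pos_iff {S : Finset E} {e : E} :
    0 < M.D S e ↔ e ∉ S ∧ M.Ind (insert e S) := by
  unfold Mat.D
  by_cases h : e ∉ S
  · rw [if_pos h, Nat.cast_pos, M.b_pos_iff]
    tauto
  · rw [if_neg h]
    constructor
    · intro h'
      exact absurd h' (lt_irrefl _)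
    · intro h'
      exact absurd h'.1 h

theorem Mat.A_eq_zero_of_D {S : Finset E} {e : E} (h : M.D S e = 0) (f : E) :
    M.A S e f = 0 := by
  by_contra hne
  have h1 : 0 < M.A S e f := lt_of_le_of_ne (M.A_nonneg S e f) (Ne.symm hne)
  rw [M.A_pos_iff] at h1
  have h2 : 0 < M.D S e := M.D_pos_iff.mpr ⟨h1.1, M.mono h1.2.2.2 (subset_insert _ _)⟩
  exact absurd h (ne_of_gt h2)

/-- row sums of the link matrix -/
theorem Mat.sum_A (S : Finset E) (e : E) (hS : S.card + 1 ≤ M.r) :
    ∑ f, M.A S e f = ((M.r : ℝ) - S.card - 1) * M.D S e := by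
  classical
  by_cases he : e ∈ S
  · have h1 : ∀ f, M.A S e f = 0 := by
      intro f
      unfold Mat.A
      rw [if_neg fun h => h.1 he]
    rw [sum_congr rfl fun f _ => h1 f, sum_const_zero]
    unfold Mat.D
    rw [if_neg (not_not.mpr he), mul_zero]
  · have h1 : ∑ f, M.A S e f = ∑ f ∈ univ \ insert e S, (M.b (insert f (insert e S)) : ℝ) := by
      rw [← sum_filter_add_sum_filter_not univ fun f => f ∉ insert e S]
      have h2 : ∑ f ∈ univ.filter (fun f => ¬ f ∉ insert e S), M.A S e f = 0 := by
        apply sum_eq_zero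
        intro f hf
        rw [mem_filter, not_not, mem_insert] at hf
        unfold Mat.A
        rw [if_neg]
        rintro ⟨h3, h4, h5⟩
        rcases hf.2 with h | h
        · exact h5 h.symm
        · exact h4 h
      rw [h2, add_zero]
      have h3 : univ.filter (fun f => f ∉ insert e S) = univ \ insert e S := by
        ext f
        simp
      rw [h3]
      apply sum_congr rfl
      intro f hf
      rw [mem_sdiff, mem_insert, not_or] at hf
      unfold Mat.A
      rw [if_pos ⟨he, hf.2.2, fun h => hf.2.1 h.symm⟩]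
    rw [h1]
    have h2 := M.sum_b (insert e S)
    have h3 : ((∑ f ∈ univ \ insert e S, M.b (insert f (insert e S)) : ℕ) : ℝ) =
        ((M.r - (insert e S).card : ℕ) : ℝ) * (M.b (insert e S) : ℝ) := by
      rw [h2]
      push_cast
      ring
    rw [Nat.cast_sum] at h3
    rw [h3, card_insert_of_notMem he, Nat.cast_sub hS]
    unfold Mat.D
    rw [if_pos he]
    push_cast
    ring

theorem Mat.sum_D (S : Finset E) (hS : S.card ≤ M.r) :
    ∑ e, M.D S e = ((M.r : ℝ) - S.card) * M.b S := by
  classical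
  have h1 : ∑ e, M.D S e = ∑ e ∈ univ \ S, (M.b (insert e S) : ℝ) := by
    rw [← sum_filter_add_sum_filter_not univ fun e => e ∉ S]
    have h2 : ∑ e ∈ univ.filter (fun e => ¬ e ∉ S), M.D S e = 0 := by
      apply sum_eq_zero
      intro f hf
      unfold Mat.D
      rw [if_neg (mem_filter.mp hf).2]
    rw [h2, add_zero]
    have h3 : univ.filter (fun f => f ∉ S) = univ \ S := by
      ext f
      simp
    rw [h3]
    apply sum_congr rfl
    intro f hf
    unfold Mat.D
    rw [if_pos (mem_sdiff.mp hf).2]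
  rw [h1]
  have h2 := M.sum_b S
  have h3 : ((∑ f ∈ univ \ S, M.b (insert f S) : ℕ) : ℝ) =
      ((M.r - S.card : ℕ) : ℝ) * (M.b S : ℝ) := by
    rw [h2]
    push_cast
    ring
  rw [Nat.cast_sum] at h3
  rw [h3, Nat.cast_sub hS]

/-- the sum of the link matrices of the links -/
theorem Mat.sum_A_insert (S : Finset E) (e f : E) (hS : S.card + 2 ≤ M.r) :
    ∑ g ∈ univ \ S, M.A (insert g S) e f = ((M.r : ℝ) - S.card - 2) * M.A S e f := by
  classical
  by_cases h : e ∉ S ∧ f ∉ S ∧ e ≠ f
  · obtain ⟨he, hf, hef⟩ := h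
    have hf' : f ∉ insert e S := by
      rw [mem_insert, not_or]
      exact ⟨hef.symm, hf⟩
    have hsub : univ \ insert f (insert e S) ⊆ univ \ S :=
      sdiff_subset_sdiff subset_rfl ((subset_insert _ _).trans (subset_insert _ _))
    have h1 : ∑ g ∈ univ \ S, M.A (insert g S) e f =
        ∑ g ∈ univ \ insert f (insert e S), (M.b (insert g (insert f (insert e S))) : ℝ) := by
      rw [← sum_subset hsub]
      · apply sum_congr rfl
        intro g hg
        rw [mem_sdiff, mem_insert, mem_insert, not_or, not_or] at hg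
        obtain ⟨_, hgf, hge, hgS⟩ := hg
        unfold Mat.A
        rw [if_pos]
        · congr 2
          ext x
          simp only [mem_insert]
          tauto
        · refine ⟨?_, ?_, hef⟩
          · rw [mem_insert, not_or]
            exact ⟨fun h => hge h.symm, he⟩
          · rw [mem_insert, not_or]
            exact ⟨fun h => hgf h.symm, hf⟩
      · intro g hg hg2
        rw [mem_sdiff, not_and, not_not, mem_insert, mem_insert] at hg2
        unfold Mat.A
        rw [if_neg]
        rintro ⟨h3, h4, _⟩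
        rcases hg2 (mem_univ _) with h | h | h
        · exact h4 (h ▸ mem_insert_self _ _)
        · exact h3 (h ▸ mem_insert_self _ _)
        · exact (mem_sdiff.mp hg).2 h
    rw [h1]
    have h2 := M.sum_b (insert f (insert e S))
    have h3 : ((∑ g ∈ univ \ insert f (insert e S),
        M.b (insert g (insert f (insert e S))) : ℕ) : ℝ) =
        ((M.r - (insert f (insert e S)).card : ℕ) : ℝ) * (M.b (insert f (insert e S)) : ℝ) := by
      rw [h2]
      push_cast
      ring
    rw [Nat.cast_sum] at h3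
    have hc : (insert f (insert e S)).card = S.card + 2 := by
      rw [card_insert_of_notMem hf', card_insert_of_notMem he]
    rw [h3, hc, Nat.cast_sub hS]
    unfold Mat.A
    rw [if_pos ⟨he, hf, hef⟩]
    push_cast
    ring
  · have h1 : ∀ g, M.A (insert g S) e f = 0 := by
      intro g
      unfold Mat.A
      rw [if_neg]
      rintro ⟨h1, h2, h3⟩
      exact h ⟨fun h' => h1 (mem_insert_of_mem h'), fun h' => h2 (mem_insert_of_mem h'), h3⟩
    rw [sum_congr rfl fun g _ => h1 g, sum_const_zero]
    unfold Mat.A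
    rw [if_neg h, mul_zero]

end Pool.Agent.Lib.MP_071ace_co.AK
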