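import Pool.Agent.Lib.MP_071ace_co.AK.Rev
import Pool.Agent.Lib.MP_071ace_co.AA.Iso

/-!
# The rigidity matroid on the pairs of a set, and relabelling
-/

set_option autoImplicit false

namespace Pool.Agent.Lib.MP_071ace_co.AK

open Finset Submodule AA

variable {V : Type} [Fintype V] [DecidableEq V]

theorem indep_card_le {p : V → Fin 3 → ℝ} (hp : Generic p) {K : Finset V} (hK : 3 ≤ K.card)
    {A : Finset (Sym2 V)} (hA : Indep (A : Set (Sym2 V))) (hAK : (A : Set (Sym2 V)) ⊆ pairs K) :
    A.card + 6 ≤ 3 * K.card := by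
  have h1 := Submodule.finrank_mono (span_mono (R := ℝ) (Set.image_mono (f := row p) hAK))
  rw [finrank_indep hp hA, Set.ncard_coe_finset] at h1
  have h2 := rank_pairs_eq hp hK
  omega

/-- the rigidity matroid on the pairs inside `K` -/
noncomputable def RM (K : Finset V) (hK : 3 ≤ K.card) : Mat (Sym2 V) where
  Ind B := Indep (B : Set (Sym2 V)) ∧ (B : Set (Sym2 V)) ⊆ pairs K
  mono := by
    rintro A B ⟨h1, h2⟩ hAB
    have hAB' : (A : Set (Sym2 V)) ⊆ B := by exact_mod_cast hAB
    exact ⟨h1.mono hAB', hAB'.trans h2⟩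
  aug := by
    rintro A B ⟨hA, hAK⟩ ⟨hB, hBK⟩ hAB
    obtain ⟨p, hp⟩ := exists_generic V
    by_contra hcon
    push Not at hcon
    have h1 : span ℝ (row p '' (B : Set (Sym2 V))) ≤ span ℝ (row p '' (A : Set (Sym2 V))) := by
      rw [span_le]
      rintro _ ⟨e, he, rfl⟩
      by_cases heA : e ∈ (A : Set (Sym2 V))
      · exact subset_span ⟨e, heA, rfl⟩
      · by_contra hnot
        refine hcon e (mem_coe.mp he) (fun h => heA (mem_coe.mpr h)) ?_ ?_
        · rw [coe_insert]
          exact (hp.indep_insert_iff hA heA).mpr hnot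
        · rw [coe_insert]
          exact Set.insert_subset (hBK he) hAK
    have h2 := Submodule.finrank_mono h1
    rw [finrank_indep hp hA, finrank_indep hp hB, Set.ncard_coe_finset,
      Set.ncard_coe_finset] at h2
    omega
  r := 3 * K.card - 6
  base := by
    obtain ⟨p, hp⟩ := exists_generic V
    obtain ⟨n, hn⟩ : ∃ n, K.card = n + 3 := ⟨K.card - 3, by omega⟩
    obtain ⟨B, h1, h2, h3⟩ := exists_iso hp n K hn
    refine ⟨(Set.toFinite B).toFinset, ⟨?_, ?_⟩, ?_⟩
    · rw [Set.Finite.coe_toFinset]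
      exact h1
    · rw [Set.Finite.coe_toFinset]
      exact h2
    · rw [← Set.ncard_eq_toFinset_card]
      omega
  le := by
    rintro A ⟨hA, hAK⟩
    obtain ⟨p, hp⟩ := exists_generic V
    have := indep_card_le hp hK hA hAK
    omega

open Classical in
/-- the isostatic graphs on `K` containing `F` -/
noncomputable def isoF (K : Finset V) (F : Finset (Sym2 V)) : Finset (Finset (Sym2 V)) :=
  univ.filter fun B => (Indep (B : Set (Sym2 V)) ∧ (B : Set (Sym2 V)) ⊆ pairs K) ∧
    B.card + 6 = 3 * K.card ∧ F ⊆ B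

theorem mem_isoF {K : Finset V} {F B : Finset (Sym2 V)} : B ∈ isoF K F ↔
    (Indep (B : Set (Sym2 V)) ∧ (B : Set (Sym2 V)) ⊆ pairs K) ∧ B.card + 6 = 3 * K.card ∧
      F ⊆ B := by
  classical
  rw [isoF, mem_filter]
  simp

theorem RM_b {K : Finset V} (hK : 3 ≤ K.card) (F : Finset (Sym2 V)) :
    (RM K hK).b F = (isoF K F).card := by
  rw [Mat.b]
  congr 1
  ext B
  rw [Mat.mem_bases, mem_isoF]
  have h1 : (RM K hK).Ind B ↔ (Indep (B : Set (Sym2 V)) ∧ (B : Set (Sym2 V)) ⊆ pairs K) :=
    Iff.rfl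
  have h2 : (RM K hK).r = 3 * K.card - 6 := rfl
  rw [h1, h2]
  constructor
  · rintro ⟨h3, h4, h5⟩
    exact ⟨h3, by omega, h5⟩
  · rintro ⟨h3, h4, h5⟩
    exact ⟨h3, by omega, h5⟩

/-! ### Relabelling -/

theorem row_perm (p : V → Fin 3 → ℝ) (σ : Equiv.Perm V) (e : Sym2 V) :
    row (fun x => p (σ.symm x)) (Sym2.map σ e) = fun w => row p e (σ.symm w.1, w.2) := by
  induction e using Sym2.ind with
  | _ a b =>
    funext w
    rw [Sym2.map_mk, row_apply, row_apply]
    simp only [Equiv.symm_apply_apply, Equiv.symm_apply_eq]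

theorem indep_perm {E : Set (Sym2 V)} (h : Indep E) (σ : Equiv.Perm V) :
    Indep (Sym2.map σ '' E) := by
  obtain ⟨p, hp⟩ := h
  refine ⟨fun x => p (σ.symm x), ?_⟩
  apply LinearIndepOn.image_of_comp
  have h1 : (row (fun x => p (σ.symm x))) ∘ Sym2.map σ =
      (LinearMap.funLeft ℝ ℝ (fun w : V × Fin 3 => (σ.symm w.1, w.2))) ∘ row p := by
    funext e
    rw [Function.comp_apply, row_perm]
    rfl
  rw [h1]
  apply hp.map_injOn
  apply Set.injOn_of_injective
  apply LinearMap.funLeft_injective_of_surjective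
  rintro ⟨x, j⟩
  exact ⟨(σ x, j), by simp⟩

theorem pairs_perm (σ : Equiv.Perm V) (K : Finset V) :
    Sym2.map σ '' pairs K ⊆ pairs (K.image σ) := by
  rintro _ ⟨_, ⟨a, ha, b, hb, hab, rfl⟩, rfl⟩
  exact ⟨σ a, mem_image_of_mem σ ha, σ b, mem_image_of_mem σ hb, fun h => hab (σ.injective h), rfl⟩

theorem iso_perm_le (σ : Equiv.Perm V) (K : Finset V) (F : Finset (Sym2 V)) :
    (isoF K F).card ≤ (isoF (K.image σ) (F.image (Sym2.map σ))).card := by
  classical
  refine card_le_card_of_injOn (fun B => B.image (Sym2.map σ)) ?_ ?_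
  · intro B hB
    rw [mem_coe, mem_isoF] at hB
    obtain ⟨⟨h1, h2⟩, h3, h4⟩ := hB
    rw [mem_coe, mem_isoF, coe_image]
    refine ⟨⟨indep_perm h1 σ, (Set.image_mono h2).trans (pairs_perm σ K)⟩, ?_, image_subset_image h4⟩
    rw [card_image_of_injective _ (Sym2.map.injective σ.injective),
      card_image_of_injective _ σ.injective]
    exact h3
  · intro B _ B' _ h
    exact image_injective (Sym2.map.injective σ.injective) h

theorem iso_perm (σ : Equiv.Perm V) (K : Finset V) (F : Finset (Sym2 V)) :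
    (isoF K F).card = (isoF (K.image σ) (F.image (Sym2.map σ))).card := by
  apply le_antisymm (iso_perm_le σ K F)
  have h1 := iso_perm_le σ.symm (K.image σ) (F.image (Sym2.map σ))
  have h2 : (K.image σ).image σ.symm = K := by
    rw [image_image]
    simp
  have h3 : (F.image (Sym2.map σ)).image (Sym2.map σ.symm) = F := by
    rw [image_image, ← Sym2.map_comp]
    simp
  rw [h2, h3] at h1
  exact h1

/-- the number of isostatic graphs on `K` depends only on the size of `K` -/
theorem iso_card {K L : Finset V} (h : K.card = L.card) : (isoF K ∅).card = (isoF L ∅).card := by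
  classical
  obtain ⟨σ, hσ⟩ : ∃ σ : Equiv.Perm V, K.image σ = L := by
    let e : {x // x ∈ K} ≃ {x // x ∈ L} := Finset.equivOfCardEq h
    refine ⟨e.extendSubtype, ?_⟩
    apply eq_of_subset_of_card_le
    · intro y hy
      obtain ⟨x, hx, rfl⟩ := mem_image.mp hy
      exact e.extendSubtype_mem x hx
    · rw [card_image_of_injective _ (Equiv.injective _), h]
  have := iso_perm σ K ∅
  rw [hσ, image_empty] at this
  exact this

theorem swap_image {K : Finset V} {a b : V} (ha : a ∈ K) (hb : b ∈ K) :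
    K.image (Equiv.swap a b) = K := by
  apply eq_of_subset_of_card_le
  · intro y hy
    obtain ⟨x, hx, rfl⟩ := mem_image.mp hy
    rcases Equiv.swap_apply_def a b x with h
    rw [h]
    split_ifs
    · exact hb
    · exact ha
    · exact hx
  · rw [card_image_of_injective _ (Equiv.injective _)]

/-- all pairs of `K` are in the same number of isostatic graphs -/
theorem iso_pair {K : Finset V} {a b c d : V} (ha : a ∈ K) (hb : b ∈ K) (hc : c ∈ K) (hd : d ∈ K)
    (hab : a ≠ b) (hcd : c ≠ d) :
    (isoF K {s(a, b)}).card = (isoF K {s(c, d)}).card := by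
  classical
  set b' := Equiv.swap a c b with hb'
  have hb'K : b' ∈ K := by
    have : b' ∈ K.image (Equiv.swap a c) := mem_image_of_mem _ hb
    rwa [swap_image ha hc] at this
  have hb'c : b' ≠ c := by
    intro h
    apply hab
    have h1 : Equiv.swap a c b = Equiv.swap a c a := by rw [← hb', h, Equiv.swap_apply_left]
    exact ((Equiv.injective _) h1).symm
  have h1 := iso_perm (Equiv.swap a c) K {s(a, b)}
  rw [swap_image ha hc, image_singleton, Sym2.map_mk, Equiv.swap_apply_left, ← hb'] at h1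
  have h2 := iso_perm (Equiv.swap b' d) K {s(c, b')}
  rw [swap_image hb'K hd, image_singleton, Sym2.map_mk, Equiv.swap_apply_left,
    Equiv.swap_apply_of_ne_of_ne hb'c.symm hcd] at h2
  rw [h1, h2]

end Pool.Agent.Lib.MP_071ace_co.AK
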