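import Pool.Agent.Lib.MP_071ace_co.AK.Few

/-!
# Removing a vertex of small degree
-/

set_option autoImplicit false

namespace Pool.Agent.Lib.MP_071ace_co.AK

open Finset Submodule AA

variable {V : Type} [Fintype V] [DecidableEq V]

/-- the pairs inside `N` as a finite set -/
def pairsF (N : Finset V) : Finset (Sym2 V) := N.offDiag.image fun q => s(q.1, q.2)

theorem coe_pairsF (N : Finset V) : (pairsF N : Set (Sym2 V)) = pairs N := by
  ext e
  rw [mem_coe, pairsF, mem_image]
  constructor
  · rintro ⟨⟨a, b⟩, h, rfl⟩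
    rw [mem_offDiag] at h
    exact ⟨a, h.1, b, h.2.1, h.2.2, rfl⟩
  · rintro ⟨a, ha, b, hb, hab, rfl⟩
    exact ⟨(a, b), mem_offDiag.mpr ⟨ha, hb, hab⟩, rfl⟩

theorem card_pairsF (N : Finset V) : (pairsF N).card = N.card.choose 2 :=
  Sym2.card_image_offDiag N

/-- the star as a finite set -/
def starF (v : V) (N : Finset V) : Finset (Sym2 V) := N.image fun x => s(v, x)

theorem coe_starF (v : V) (N : Finset V) : (starF v N : Set (Sym2 V)) = star v N := by
  rw [starF, coe_image]
  rfl

theorem remove {K : Finset V} {v : V} (hv : v ∉ K) (hK : 3 ≤ K.card) {B : Set (Sym2 V)}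
    (hB : Indep B) (hBK : B ⊆ pairs (insert v K)) (hc : B.ncard + 6 = 3 * (K.card + 1)) :
    nb B v ⊆ K ∧ 3 ≤ (nb B v).card ∧ del B v ⊆ pairs K ∧
      (del B v).ncard + (nb B v).card = B.ncard ∧
      ∃ F : Set (Sym2 V), F.ncard + 3 = (nb B v).card ∧ F ⊆ pairs (nb B v) ∧
        Disjoint F (del B v) ∧ Indep (del B v ∪ F) := by
  classical
  obtain ⟨p, hp⟩ := exists_generic V
  set N := nb B v with hN
  have hNK : N ⊆ K := by
    intro y hy
    rw [hN, mem_nb] at hy
    have h1 := hBK hy
    rw [pairs_insert v K hv] at h1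
    rcases h1 with h1 | ⟨x, hx, h1⟩
    · exact absurd (Sym2.mem_mk_left v y) (pairs_avoids hv _ h1)
    · have : x = y := Sym2.congr_right.mp h1
      exact this ▸ hx
  have hvN : v ∉ N := fun h => hv (hNK h)
  have hdelK : del B v ⊆ pairs K := by
    intro e he
    have h1 := hBK he.1
    rw [pairs_insert v K hv] at h1
    rcases h1 with h1 | ⟨x, hx, h1⟩
    · exact h1
    · exact absurd (h1 ▸ Sym2.mem_mk_left v x) he.2
  have hdI : Indep (del B v) := hB.mono fun e he => he.1
  have hsplit : B = del B v ∪ star v N := del_union_star B v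
  have hdis : Disjoint (del B v) (star v N) := by
    rw [Set.disjoint_left]
    rintro e he ⟨x, _, rfl⟩
    exact he.2 (Sym2.mem_mk_left v x)
  have hBc : (del B v).ncard + N.card = B.ncard := by
    conv_rhs => rw [hsplit]
    rw [Set.ncard_union_eq hdis (Set.toFinite _) (Set.toFinite _), ncard_star]
  have hdc : (del B v).ncard + 6 ≤ 3 * K.card := by
    have h1 := Submodule.finrank_mono (span_mono (R := ℝ) (Set.image_mono (f := row p) hdelK))
    rw [finrank_indep hp hdI] at h1
    have h2 := rank_pairs_eq hp hK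
    omega
  have hN3 : 3 ≤ N.card := by omega
  refine ⟨hNK, hN3, hdelK, hBc, ?_⟩
  obtain ⟨b, hb1, hb2, hb3, hb4⟩ := exists_linearIndepOn_extension
    (K := ℝ) (v := row p) (s := del B v) (t := del B v ∪ pairs N) (hp.1 _ hdI)
    Set.subset_union_left
  have hbI : Indep b := ⟨p, hb4⟩
  obtain ⟨N0, hN0, hN0c⟩ := Finset.exists_subset_card_eq hN3
  have hle : span ℝ (row p '' B) ≤ span ℝ (row p '' b) ⊔ span ℝ (row p '' star v N0) := by
    rw [span_le]
    rintro _ ⟨e, he, rfl⟩
    rw [hsplit] at he
    rcases he with he | he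
    · exact mem_sup_left (hb3 ⟨e, Or.inl he, rfl⟩)
    · refine hp.star_le hvN hN0 hN0c ?_ (subset_span ⟨e, he, rfl⟩)
      exact (Set.image_mono Set.subset_union_right).trans hb3
  have h1 := Submodule.finrank_mono hle
  have h2 := Submodule.finrank_add_le_finrank_add_finrank
    (span ℝ (row p '' b)) (span ℝ (row p '' star v N0))
  have h3 := finrank_star_le p v N0
  rw [finrank_indep hp hB] at h1
  rw [finrank_indep hp hbI] at h2
  have h4 : (b \ del B v).ncard + (del B v).ncard = b.ncard :=
    Set.ncard_sdiff_add_ncard_of_subset hb2 (Set.toFinite _)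
  have h5 : N.card - 3 ≤ (b \ del B v).ncard := by omega
  obtain ⟨F, hF, hFc⟩ := Set.exists_subset_card_eq h5
  refine ⟨F, by omega, ?_, ?_, ?_⟩
  · intro e he
    have h6 := hF he
    rcases hb1 h6.1 with h7 | h7
    · exact absurd h7 h6.2
    · exact h7
  · rw [Set.disjoint_left]
    intro e he
    exact (hF he).2
  · apply hbI.mono
    apply Set.union_subset hb2
    exact hF.trans Set.sdiff_subset

end Pool.Agent.Lib.MP_071ace_co.AK
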