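import Pool.Agent.Lib.MP_071ace_co.AK.Corr

/-!
# The induction step and the correlation inequality
-/

set_option autoImplicit false

namespace Pool.Agent.Lib.MP_071ace_co.AK

open Finset Matrix

variable {E : Type} [Fintype E] [DecidableEq E] (M : Mat E)

theorem Mat.D_insert {S : Finset E} {g : E} (hg : g ∉ S) (e : E) :
    M.D (insert g S) e = M.A S g e := by
  unfold Mat.D Mat.A
  by_cases h : e ∉ insert g S
  · have h' := h
    rw [mem_insert, not_or] at h'
    rw [if_pos h, if_pos ⟨hg, h'.2, fun h => h'.1 h.symm⟩]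
  · rw [if_neg h, if_neg]
    rintro ⟨_, h2, h3⟩
    apply h
    rw [mem_insert, not_or]
    exact ⟨fun h => h3 h.symm, h2⟩

theorem Mat.A_insert_zero {S : Finset E} {g : E} (h : ¬ M.Ind (insert g S)) (e f : E) :
    M.A (insert g S) e f = 0 := by
  by_contra hne
  have h1 : 0 < M.A (insert g S) e f := lt_of_le_of_ne (M.A_nonneg _ e f) (Ne.symm hne)
  rw [M.A_pos_iff] at h1
  exact h (M.mono h1.2.2.2 ((subset_insert _ _).trans (subset_insert _ _)))

/-- the sum of the forms of the links -/
theorem Mat.sum_q (S : Finset E) (hS : S.card + 2 ≤ M.r) (y : E → ℝ) :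
    ∑ g ∈ univ \ S, M.q (insert g S) y = ((M.r : ℝ) - S.card - 2) * M.q S y := by
  unfold Mat.q
  rw [sum_comm, mul_sum]
  refine sum_congr rfl fun e _ => ?_
  rw [sum_comm, mul_sum]
  refine sum_congr rfl fun f _ => ?_
  rw [← sum_mul, ← sum_mul, M.sum_A_insert S e f hS]
  ring

/-- the inequality `W ≤ W²` -/
theorem Mat.q_le (S : Finset E) (hS : S.card + 3 ≤ M.r)
    (ih : ∀ g, g ∉ S → M.Ind (insert g S) → M.Rev (insert g S)) (y : E → ℝ) :
    ((M.r : ℝ) - S.card - 1) * M.q S y ≤ ∑ g, (∑ e, M.A S g e * y e) ^ 2 / M.D S g := by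
  set d : ℝ := (M.r : ℝ) - S.card with hd
  have hd3 : 3 ≤ d := by
    have : ((S.card + 3 : ℕ) : ℝ) ≤ M.r := by exact_mod_cast hS
    push_cast at this
    linarith
  have h1 : ∀ g ∈ univ \ S, M.q (insert g S) y ≤
      ((d - 2) / (d - 1)) * ((∑ e, M.A S g e * y e) ^ 2 / M.D S g) := by
    intro g hg
    have hgS := (mem_sdiff.mp hg).2
    by_cases hI : M.Ind (insert g S)
    · have h2 := ih g hgS hI y
      rw [card_insert_of_notMem hgS] at h2
      have h3 : ∑ e, M.D (insert g S) e * y e = ∑ e, M.A S g e * y e :=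
        sum_congr rfl fun e _ => by rw [M.D_insert hgS]
      rw [h3] at h2
      have hDg : M.D S g = M.b (insert g S) := by
        unfold Mat.D
        rw [if_pos hgS]
      have hDpos : 0 < M.D S g := M.D_pos_iff.mpr ⟨hgS, hI⟩
      rw [← hDg] at h2
      push_cast at h2
      have h4 : (d - 1) * M.D S g * M.q (insert g S) y ≤
          (d - 2) * (∑ e, M.A S g e * y e) ^ 2 := by
        have e1 : (M.r : ℝ) - ((S.card : ℝ) + 1) = d - 1 := by rw [hd]; ring
        rw [e1] at h2
        have e2 : d - 1 - 1 = d - 2 := by ring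
        rw [e2] at h2
        exact h2
      rw [div_mul_div_comm, le_div_iff₀ (mul_pos (by linarith) hDpos)]
      linarith
    · have h2 : M.q (insert g S) y = 0 := by
        unfold Mat.q
        apply sum_eq_zero
        intro e _
        apply sum_eq_zero
        intro f _
        rw [M.A_insert_zero hI]
        ring
      rw [h2]
      apply mul_nonneg
      · exact div_nonneg (by linarith) (by linarith)
      · exact div_nonneg (sq_nonneg _) (M.D_nonneg S g)
  have h2 := sum_le_sum h1
  rw [M.sum_q S (by omega), ← mul_sum] at h2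
  have h3 : ∑ g ∈ univ \ S, (∑ e, M.A S g e * y e) ^ 2 / M.D S g ≤
      ∑ g, (∑ e, M.A S g e * y e) ^ 2 / M.D S g := by
    apply sum_le_sum_of_subset_of_nonneg (subset_univ _)
    intro g _ _
    exact div_nonneg (sq_nonneg _) (M.D_nonneg S g)
  have h4 : (d - 2) * M.q S y ≤
      ((d - 2) / (d - 1)) * ∑ g, (∑ e, M.A S g e * y e) ^ 2 / M.D S g :=
    h2.trans (mul_le_mul_of_nonneg_left h3 (div_nonneg (by linarith) (by linarith)))
  have h5 : ((d - 2) / (d - 1)) * ∑ g, (∑ e, M.A S g e * y e) ^ 2 / M.D S g =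
      (d - 2) * ((∑ g, (∑ e, M.A S g e * y e) ^ 2 / M.D S g) / (d - 1)) := by ring
  rw [h5] at h4
  have h6 := le_of_mul_le_mul_left h4 (by linarith)
  rw [le_div_iff₀ (by linarith)] at h6
  linarith

theorem Mat.rev_step {S : Finset E} (hI : M.Ind S) (hS : S.card + 3 ≤ M.r)
    (ih : ∀ g, g ∉ S → M.Ind (insert g S) → M.Rev (insert g S)) : M.Rev S := by
  apply M.rev_of S (by omega)
  intro y
  set d : ℝ := (M.r : ℝ) - S.card with hd
  have hd3 : 3 ≤ d := by
    have : ((S.card + 3 : ℕ) : ℝ) ≤ M.r := by exact_mod_cast hS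
    push_cast at this
    linarith
  have hb : (0 : ℝ) < M.b S := by exact_mod_cast (M.b_pos_iff S).mpr hI
  have hdb : d * M.b S ≠ 0 := (mul_pos (by linarith) hb).ne'
  set t := (∑ e, M.D S e * y e) / (d * M.b S) with ht
  refine ⟨t, ?_⟩
  set z : E → ℝ := fun e => y e - t with hz
  have hzD : ∑ e, M.D S e * z e = 0 := by
    have h1 : ∑ e, M.D S e * z e = (∑ e, M.D S e * y e) - t * ∑ e, M.D S e := by
      rw [mul_sum, ← sum_sub_distrib]
      refine sum_congr rfl fun e _ => ?_
      rw [hz]
      ring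
    rw [h1, M.sum_D S (by omega), ht, div_mul_cancel₀ _ hdb, sub_self]
  set sD : E → ℝ := fun e => Real.sqrt (M.D S e) with hsD
  have hsq : ∀ e, sD e * sD e = M.D S e := fun e => Real.mul_self_sqrt (M.D_nonneg S e)
  set N : Matrix E E ℝ := fun e f => M.A S e f / (sD e * sD f * (d - 1)) with hN
  have hsym : N.transpose = N := by
    ext e f
    rw [Matrix.transpose_apply, hN]
    simp only
    rw [M.A_comm, mul_comm (sD f)]
  have hmul : ∀ (x : E → ℝ) (g : E), (N *ᵥ x) g =
      (∑ e, M.A S g e * (x e / sD e)) / (sD g * (d - 1)) := by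
    intro x g
    rw [Matrix.mulVec, dotProduct, sum_div]
    refine sum_congr rfl fun e _ => ?_
    rw [hN]
    simp only
    rw [div_mul_eq_mul_div, mul_div_assoc', div_div]
    congr 1
    ring
  have hquad : ∀ x : E → ℝ, x ⬝ᵥ (N *ᵥ x) = M.q S (fun e => x e / sD e) / (d - 1) := by
    intro x
    rw [dotProduct]
    unfold Mat.q
    rw [sum_div]
    refine sum_congr rfl fun e _ => ?_
    rw [hmul, sum_div, sum_div, mul_sum]
    refine sum_congr rfl fun f _ => ?_
    rw [mul_div_assoc', ← div_div]
    simp only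
    ring
  have hNx : ∀ x : E → ℝ, (N *ᵥ x) ⬝ᵥ (N *ᵥ x) =
      (∑ g, (∑ e, M.A S g e * (x e / sD e)) ^ 2 / M.D S g) / (d - 1) ^ 2 := by
    intro x
    rw [dotProduct, sum_div]
    refine sum_congr rfl fun g _ => ?_
    rw [hmul, ← hsq g]
    rw [div_mul_div_comm, div_div]
    congr 1 <;> ring
  have hspec := spec hsym (h := sD) ?_ ?_ (fun e => sD e * z e) ?_
  · rw [hquad] at hspec
    have h1 : M.q S (fun e => sD e * z e / sD e) = M.q S z := by
      unfold Mat.q
      refine sum_congr rfl fun e _ => sum_congr rfl fun f _ => ?_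
      by_cases he : M.D S e = 0
      · rw [M.A_eq_zero_of_D he]
        ring
      · by_cases hf : M.D S f = 0
        · rw [M.A_comm, M.A_eq_zero_of_D hf]
          ring
        · have he' : sD e ≠ 0 := fun h => he (by rw [← hsq, h, mul_zero])
          have hf' : sD f ≠ 0 := fun h => hf (by rw [← hsq, h, mul_zero])
          show M.A S e f * (sD e * z e / sD e) * (sD f * z f / sD f) = _
          rw [mul_div_cancel_left₀ _ he', mul_div_cancel_left₀ _ hf']
    rw [h1] at hspec
    have h2 : (0 : ℝ) < d - 1 := by linarith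
    by_contra hcon
    push Not at hcon
    have h3 : 0 < M.q S z / (d - 1) := div_pos hcon h2
    linarith
  · intro x
    rw [hquad, hNx]
    have h1 := M.q_le S hS ih (fun e => x e / sD e)
    have h2 : (0 : ℝ) < d - 1 := by linarith
    rw [div_le_div_iff₀ h2 (pow_pos h2 2)]
    have h3 := mul_le_mul_of_nonneg_right h1 h2.le
    rw [← hd] at h3
    nlinarith
  · intro l hl u hu
    set w : E → ℝ := fun e => u e / sD e with hw
    have h2 : (0 : ℝ) < d - 1 := by linarith
    have hAw : ∀ g, ∑ e, M.A S g e * w e = l * (d - 1) * (M.D S g * w g) := by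
      intro g
      have h1 : (N *ᵥ u) g = l * u g := by rw [hu]; rfl
      rw [hmul] at h1
      by_cases hg : M.D S g = 0
      · rw [hg]
        have : ∀ e, M.A S g e * w e = 0 := fun e => by rw [M.A_eq_zero_of_D hg, zero_mul]
        rw [sum_congr rfl fun e _ => this e, sum_const_zero]
        ring
      · have hg' : sD g ≠ 0 := fun h => hg (by rw [← hsq, h, mul_zero])
        rw [div_eq_iff (mul_ne_zero hg' h2.ne')] at h1
        rw [h1, ← hsq g, hw]
        field_simp
    have hrow : ∀ e, ∑ f, M.A S e f = (d - 1) * M.D S e := by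
      intro e
      rw [M.sum_A S e (by omega), hd]
    have hzero : ∑ e, ∑ f, M.A S e f * (w e - w f) ^ 2 ≤ 0 := by
      have h3 : ∑ e, ∑ f, M.A S e f * (w e - w f) ^ 2 =
          (∑ e, w e ^ 2 * ∑ f, M.A S e f) - 2 * (∑ e, w e * ∑ f, M.A S e f * w f) +
            ∑ f, w f ^ 2 * ∑ e, M.A S f e := by
        have h4 : ∑ e, ∑ f, M.A S e f * w f ^ 2 = ∑ f, w f ^ 2 * ∑ e, M.A S f e := by
          rw [sum_comm]
          refine sum_congr rfl fun f _ => ?_
          rw [mul_sum]
          exact sum_congr rfl fun e _ => by rw [M.A_comm, mul_comm]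
        have h5 : ∀ e, ∑ f, M.A S e f * (w e - w f) ^ 2 = w e ^ 2 * (∑ f, M.A S e f) -
            2 * (w e * ∑ f, M.A S e f * w f) + ∑ f, M.A S e f * w f ^ 2 := by
          intro e
          rw [mul_sum, mul_sum, mul_sum, ← sum_sub_distrib, ← sum_add_distrib]
          exact sum_congr rfl fun f _ => by ring
        rw [sum_congr rfl fun e _ => h5 e, sum_add_distrib, sum_sub_distrib, h4, ← mul_sum]
      rw [h3]
      have h5 : ∀ e, w e ^ 2 * ∑ f, M.A S e f = (d - 1) * (M.D S e * w e ^ 2) := fun e => by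
        rw [hrow]; ring
      have h6 : ∀ e, w e * ∑ f, M.A S e f * w f = l * (d - 1) * (M.D S e * w e ^ 2) := fun e => by
        rw [hAw]; ring
      rw [sum_congr rfl fun e _ => h5 e, sum_congr rfl fun e _ => h6 e, ← mul_sum, ← mul_sum]
      have h7 : 0 ≤ ∑ e, M.D S e * w e ^ 2 :=
        sum_nonneg fun e _ => mul_nonneg (M.D_nonneg S e) (sq_nonneg _)
      have h8 : 0 ≤ (l - 1) * (d - 1) * ∑ e, M.D S e * w e ^ 2 :=
        mul_nonneg (mul_nonneg (by linarith) h2.le) h7
      linarith
    have hterm : ∀ e f, 0 < M.A S e f → w e = w f := by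
      intro e f hA
      have h3 : ∀ e ∈ univ, 0 ≤ ∑ f, M.A S e f * (w e - w f) ^ 2 := fun e _ =>
        sum_nonneg fun f _ => mul_nonneg (M.A_nonneg S e f) (sq_nonneg _)
      have h4 := (sum_eq_zero_iff_of_nonneg h3).mp (le_antisymm hzero (sum_nonneg h3)) e
        (mem_univ e)
      have h5 := (sum_eq_zero_iff_of_nonneg fun f _ =>
        mul_nonneg (M.A_nonneg S e f) (sq_nonneg (w e - w f))).mp h4 f (mem_univ f)
      rcases mul_eq_zero.mp h5 with h6 | h6
      · exact absurd h6 hA.ne'
      · have := pow_eq_zero_iff (n := 2) (by norm_num) |>.mp h6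
        linarith
    have hne : (M.L S).Nonempty := by
      obtain ⟨B, hB, hBr⟩ := M.base
      obtain ⟨x, _, hx, hIx⟩ := M.aug hI hB (by omega)
      exact ⟨x, M.mem_L.mpr ⟨hx, hIx⟩⟩
    obtain ⟨e0, he0⟩ := hne
    refine ⟨w e0, ?_⟩
    funext e
    rw [Pi.smul_apply, smul_eq_mul]
    by_cases he : M.D S e = 0
    · have hs0 : sD e = 0 := by
        rw [hsD]
        simp only
        rw [he, Real.sqrt_zero]
      have h1 : (N *ᵥ u) e = l * u e := by rw [hu]; rfl
      rw [hmul, hs0, zero_mul, div_zero] at h1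
      rw [hs0, mul_zero]
      rcases mul_eq_zero.mp h1.symm with h3 | h3
      · linarith
      · exact h3
    · have he' : sD e ≠ 0 := fun h => he (by rw [← hsq, h, mul_zero])
      have hpos : 0 < M.D S e := lt_of_le_of_ne (M.D_nonneg S e) (Ne.symm he)
      have heL : e ∈ M.L S := by
        rw [M.mem_L]
        exact M.D_pos_iff.mp hpos
      have h3 := M.connected (by omega) hterm he0 heL
      rw [h3, hw]
      simp only
      rw [div_mul_cancel₀ _ he']
  · rw [dotProduct, ← hzD]
    refine sum_congr rfl fun e _ => ?_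
    rw [← hsq e]
    ring

theorem Mat.rev (n : ℕ) : ∀ S : Finset E, M.Ind S → S.card + n + 2 = M.r → M.Rev S := by
  induction n with
  | zero =>
    intro S hI hS
    exact M.rev_two hI (by omega)
  | succ n ih =>
    intro S hI hS
    apply M.rev_step hI (by omega)
    intro g hg hIg
    exact ih (insert g S) hIg (by rw [card_insert_of_notMem hg]; omega)

/-- **Correlation inequality** (Huh, Schröter, Wang). -/
theorem Mat.corr {S : Finset E} {e f : E} (he : e ∉ S) (hf : f ∉ S) (hef : e ≠ f) :
    M.b S * M.b (insert f (insert e S)) ≤ 2 * (M.b (insert e S) * M.b (insert f S)) := by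
  by_cases h : M.Ind (insert f (insert e S))
  · have hfe : f ∉ insert e S := by
      rw [mem_insert, not_or]
      exact ⟨hef.symm, hf⟩
    have hc : (insert f (insert e S)).card = S.card + 2 := by
      rw [card_insert_of_notMem hfe, card_insert_of_notMem he]
    have hr := M.le _ h
    rw [hc] at hr
    have hI : M.Ind S := M.mono h ((subset_insert _ _).trans (subset_insert _ _))
    have hIe : M.Ind (insert e S) := M.mono h (subset_insert _ _)
    have hIf : M.Ind (insert f S) := M.mono h (insert_subset_insert _ (subset_insert _ _))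
    have hrev := M.rev (M.r - S.card - 2) S hI (by omega)
    set d : ℝ := (M.r : ℝ) - S.card with hd
    have hd2 : 2 ≤ d := by
      have : ((S.card + 2 : ℕ) : ℝ) ≤ M.r := by exact_mod_cast hr
      push_cast at this
      linarith
    have hDe : M.D S e = M.b (insert e S) := by
      unfold Mat.D
      rw [if_pos he]
    have hDf : M.D S f = M.b (insert f S) := by
      unfold Mat.D
      rw [if_pos hf]
    have hA : M.A S e f = M.b (insert f (insert e S)) := by
      unfold Mat.A
      rw [if_pos ⟨he, hf, hef⟩]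
    have hbe : (0 : ℝ) < M.b (insert e S) := by exact_mod_cast (M.b_pos_iff _).mpr hIe
    have hbf : (0 : ℝ) < M.b (insert f S) := by exact_mod_cast (M.b_pos_iff _).mpr hIf
    set y : E → ℝ := fun x => (if x = e then (M.b (insert f S) : ℝ) else 0) +
      (if x = f then (M.b (insert e S) : ℝ) else 0) with hy
    have h1 := hrev y
    have hT : ∑ x, M.D S x * y x = 2 * (M.b (insert e S) * M.b (insert f S)) := by
      rw [hy]
      simp only [mul_add, mul_ite, mul_zero, sum_add_distrib, sum_ite_eq', mem_univ, if_true]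
      rw [hDe, hDf]
      ring
    have hAee : ∀ x, M.A S x x = 0 := by
      intro x
      unfold Mat.A
      rw [if_neg fun h => h.2.2 rfl]
    have hq : M.q S y = 2 * (M.b (insert f (insert e S)) *
        (M.b (insert e S) * M.b (insert f S))) := by
      unfold Mat.q
      rw [hy]
      simp only [mul_add, mul_ite, mul_zero, sum_add_distrib, sum_ite_eq', mem_univ, if_true,
        add_mul, ite_mul, zero_mul, hAee]
      rw [M.A_comm S f e, hA]
      ring
    rw [hT, hq] at h1
    set a : ℝ := (M.b (insert e S) : ℝ) with ha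
    set c : ℝ := (M.b (insert f S) : ℝ) with hc'
    set x : ℝ := (M.b (insert f (insert e S)) : ℝ) with hx
    set b : ℝ := (M.b S : ℝ) with hb
    have hac : 0 < a * c := mul_pos hbe hbf
    have hx0 : 0 ≤ x := Nat.cast_nonneg _
    have hb0 : 0 ≤ b := Nat.cast_nonneg _
    have h2 : (b * x) * (2 * d * (a * c)) ≤ (2 * (a * c)) * (2 * d * (a * c)) := by
      have h3 : (d - 1) * (2 * (a * c)) ^ 2 ≤ d * (2 * (a * c)) ^ 2 :=
        mul_le_mul_of_nonneg_right (by linarith) (sq_nonneg _)
      nlinarith
    have h3 := le_of_mul_le_mul_right h2 (mul_pos (by linarith) hac)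
    have h4 : ((M.b S * M.b (insert f (insert e S)) : ℕ) : ℝ) ≤
        ((2 * (M.b (insert e S) * M.b (insert f S)) : ℕ) : ℝ) := by
      push_cast
      exact h3
    exact_mod_cast h4
  · rw [M.b_eq_zero h, mul_zero]
    exact Nat.zero_le _

end Pool.Agent.Lib.MP_071ace_co.AK
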