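import Pool.Agent.Lib.MP_071ace_co.AK.Upper
import Pool.Agent.Lib.MP_071ace_co.AA.Final

/-!
# The number of typical graphs
-/

set_option autoImplicit false

namespace Pool.Agent.Lib.MP_071ace_co.AK

open Finset Submodule AA

section

variable {V : Type} [Fintype V] [DecidableEq V]

/-- functions choosing two vertices of `K` for every vertex outside `K` -/
def PF (K : Finset V) : Finset (V → Finset V) :=
  Fintype.piFinset fun v => if v ∈ K then {∅} else powersetCard 2 K

theorem mem_PF {K : Finset V} {f : V → Finset V} :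
    f ∈ PF K ↔ (∀ v ∈ K, f v = ∅) ∧ ∀ v ∉ K, f v ⊆ K ∧ (f v).card = 2 := by
  rw [PF, Fintype.mem_piFinset]
  constructor
  · intro h
    refine ⟨fun v hv => ?_, fun v hv => ?_⟩
    · have := h v
      rw [if_pos hv, mem_singleton] at this
      exact this
    · have := h v
      rw [if_neg hv, mem_powersetCard] at this
      exact this
  · intro h v
    by_cases hv : v ∈ K
    · rw [if_pos hv, mem_singleton]
      exact h.1 v hv
    · rw [if_neg hv, mem_powersetCard]
      exact h.2 v hv

theorem card_PF (K : Finset V) : (PF K).card = (K.card.choose 2) ^ (univ \ K).card := by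
  classical
  rw [PF, Fintype.card_piFinset]
  have h1 : ∀ v : V, (if v ∈ K then ({∅} : Finset (Finset V)) else powersetCard 2 K).card =
      if v ∈ univ \ K then K.card.choose 2 else 1 := by
    intro v
    by_cases hv : v ∈ K
    · rw [if_pos hv, card_singleton, if_neg fun h => (mem_sdiff.mp h).2 hv]
    · rw [if_neg hv, card_powersetCard, if_pos (mem_sdiff.mpr ⟨mem_univ _, hv⟩)]
  rw [prod_congr rfl fun v _ => h1 v, prod_ite, prod_const, prod_const_one, mul_one]
  congr 1
  rw [filter_mem_eq_inter, univ_inter]

end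

open Classical in
/-- the independent graphs which are typical for `K` -/
noncomputable def TY (n s : ℕ) (K : Finset (Fin n)) : Finset (SimpleGraph (Fin n)) :=
  (indset n).filter fun G => Typical s G K

open Classical in
theorem TY_le (n s : ℕ) (K : Finset (Fin n)) :
    (TY n s K).card ≤
      J K ∅ * (2 ^ ((univ \ K).card ^ 2) * (K.card.choose 2) ^ (univ \ K).card) := by
  have h0 : (TY n s K).card ≤
      ((isoF K ∅) ×ˢ ((pairsF (univ \ K)).powerset ×ˢ PF K)).card := by
    refine card_le_card_of_injOn (fun G => (((Set.toFinite (within G K).edgeSet).toFinset :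
      Finset (Sym2 (Fin n))), (((Set.toFinite (within G (univ \ K : Finset (Fin n))).edgeSet).toFinset
      : Finset (Sym2 (Fin n))), fun v => if v ∈ K then ∅ else nbs G K v))) ?_ ?_
    · intro G hG
      rw [mem_coe, TY, mem_filter, mem_indset] at hG
      obtain ⟨hI, hT⟩ := hG
      rw [mem_coe, mem_product, mem_product]
      refine ⟨?_, ?_, ?_⟩
      · show (Set.toFinite (within G K).edgeSet).toFinset ∈ isoF K ∅
        rw [mem_isoF, Set.Finite.coe_toFinset]
        refine ⟨⟨hI.mono ?_, ?_⟩, ?_, empty_subset _⟩
        · intro e he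
          induction e using Sym2.ind with
          | _ a b => exact he.2.2
        · intro e he
          induction e using Sym2.ind with
          | _ a b =>
            obtain ⟨ha, hb, hab⟩ := he
            exact ⟨a, by exact_mod_cast ha, b, by exact_mod_cast hb, hab.ne, rfl⟩
        · rw [← Set.ncard_eq_toFinset_card]
          exact hT.isostatic
      · show (Set.toFinite (within G (univ \ K : Finset (Fin n))).edgeSet).toFinset ∈ _
        rw [mem_powerset, ← coe_subset, Set.Finite.coe_toFinset, coe_pairsF]
        intro e he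
        induction e using Sym2.ind with
        | _ a b =>
          obtain ⟨ha, hb, hab⟩ := he
          exact ⟨a, by exact_mod_cast ha, b, by exact_mod_cast hb, hab.ne, rfl⟩
      · rw [mem_PF]
        refine ⟨fun v hv => if_pos hv, fun v hv => ?_⟩
        show (if v ∈ K then ∅ else nbs G K v) ⊆ K ∧ (if v ∈ K then ∅ else nbs G K v).card = 2
        rw [if_neg hv]
        refine ⟨fun x hx => (mem_nbs.mp hx).1, ?_⟩
        rw [← hT.two v hv, ← Set.ncard_coe_finset]
        congr 1
        ext x
        rw [mem_coe, mem_nbs]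
        rfl
    · intro G _ G' _ h
      have h1 : (Set.toFinite (within G K).edgeSet).toFinset =
          (Set.toFinite (within G' K).edgeSet).toFinset := congrArg Prod.fst h
      have h2 : (Set.toFinite (within G (univ \ K : Finset (Fin n))).edgeSet).toFinset =
          (Set.toFinite (within G' (univ \ K : Finset (Fin n))).edgeSet).toFinset :=
        congrArg (fun q => q.2.1) h
      have h3 : (fun v => if v ∈ K then ∅ else nbs G K v) =
          fun v => if v ∈ K then ∅ else nbs G' K v := congrArg (fun q => q.2.2) h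
      have key : ∀ (G : SimpleGraph (Fin n)) (a b : Fin n), G.Adj a b ↔
          s(a, b) ∈ (Set.toFinite (within G K).edgeSet).toFinset ∨
          s(a, b) ∈ (Set.toFinite (within G (univ \ K : Finset (Fin n))).edgeSet).toFinset ∨
          (a ∈ K ∧ a ∈ (fun v => if v ∈ K then ∅ else nbs G K v) b) ∨
          (b ∈ K ∧ b ∈ (fun v => if v ∈ K then ∅ else nbs G K v) a) := by
        intro G a b
        rw [Set.Finite.mem_toFinset, Set.Finite.mem_toFinset]
        constructor
        · intro hab
          by_cases ha : a ∈ K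
          · by_cases hb : b ∈ K
            · exact Or.inl ⟨by exact_mod_cast ha, by exact_mod_cast hb, hab⟩
            · refine Or.inr (Or.inr (Or.inl ⟨ha, ?_⟩))
              show a ∈ (if b ∈ K then ∅ else nbs G K b)
              rw [if_neg hb]
              exact mem_nbs.mpr ⟨ha, hab.symm⟩
          · by_cases hb : b ∈ K
            · refine Or.inr (Or.inr (Or.inr ⟨hb, ?_⟩))
              show b ∈ (if a ∈ K then ∅ else nbs G K a)
              rw [if_neg ha]
              exact mem_nbs.mpr ⟨hb, hab⟩
            · refine Or.inr (Or.inl ⟨?_, ?_, hab⟩)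
              · exact mem_coe.mpr (mem_sdiff.mpr ⟨mem_univ _, ha⟩)
              · exact mem_coe.mpr (mem_sdiff.mpr ⟨mem_univ _, hb⟩)
        · rintro (h | h | ⟨ha, h⟩ | ⟨hb, h⟩)
          · exact h.2.2
          · exact h.2.2
          · have h' : a ∈ (if b ∈ K then ∅ else nbs G K b) := h
            by_cases hb : b ∈ K
            · rw [if_pos hb] at h'
              exact absurd h' (notMem_empty a)
            · rw [if_neg hb] at h'
              exact (mem_nbs.mp h').2.symm
          · have h' : b ∈ (if a ∈ K then ∅ else nbs G K a) := h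
            by_cases ha : a ∈ K
            · rw [if_pos ha] at h'
              exact absurd h' (notMem_empty b)
            · rw [if_neg ha] at h'
              exact (mem_nbs.mp h').2
      ext a b
      rw [key G, key G', h1, h2, h3]
  refine h0.trans ?_
  rw [card_product, card_product, card_powerset, card_PF, card_pairsF, J]
  apply Nat.mul_le_mul_left
  apply Nat.mul_le_mul_right
  apply Nat.pow_le_pow_right (by norm_num)
  exact Nat.choose_le_pow _ _

/-- a set of size `m` -/
def Kst (n m : ℕ) : Finset (Fin n) := univ.filter fun i => i.val < m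

theorem card_Kst {n m : ℕ} (h : m ≤ n) : (Kst n m).card = m := by
  rw [Kst, Fin.card_filter_val_lt, Nat.min_eq_right h]

/-- the number of isostatic graphs on `m` vertices -/
noncomputable def Jn (n m : ℕ) : ℕ := J (Kst n m) ∅

theorem J_eq {n : ℕ} (K : Finset (Fin n)) : J K ∅ = Jn n K.card := by
  apply iso_card
  rw [card_Kst]
  have := card_le_univ K
  rwa [Fintype.card_fin] at this

theorem Jn_upper {n m : ℕ} (hm : 3 ≤ m) (hn : m + 1 ≤ n) :
    Jn n (m + 1) ≤ 22014720 * (n ^ 3 * Jn n m) := by
  have hc : (Kst n m).card = m := card_Kst (by omega)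
  obtain ⟨v, hv⟩ : ∃ v, v ∉ Kst n m := by
    by_contra hcon
    push Not at hcon
    have : Kst n m = univ := eq_univ_iff_forall.mpr hcon
    rw [this, card_univ, Fintype.card_fin] at hc
    omega
  have h1 := iso_upper hv (by omega)
  rw [J_eq, card_insert_of_notMem hv, hc] at h1
  refine h1.trans ?_
  apply Nat.mul_le_mul_left
  rw [J_eq, hc]
  apply Nat.mul_le_mul_right
  exact Nat.pow_le_pow_left (by omega) 3

theorem Jn_lower {n m : ℕ} (hm : 3 ≤ m) (hn : m + 1 ≤ n) :
    Jn n m * m.choose 3 ≤ Jn n (m + 1) := by
  have hc : (Kst n m).card = m := card_Kst (by omega)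
  obtain ⟨v, hv⟩ : ∃ v, v ∉ Kst n m := by
    by_contra hcon
    push Not at hcon
    have : Kst n m = univ := eq_univ_iff_forall.mpr hcon
    rw [this, card_univ, Fintype.card_fin] at hc
    omega
  have h1 := iso_lower hv (by omega)
  rw [J_eq (insert v _), card_insert_of_notMem hv, J_eq, hc] at h1
  exact h1

theorem Jn_up_chain {n m : ℕ} (hm : 3 ≤ m) (j : ℕ) : m + j ≤ n →
    Jn n (m + j) ≤ (22014720 * n ^ 3) ^ j * Jn n m := by
  induction j with
  | zero =>
    intro _
    rw [add_zero, pow_zero, one_mul]
  | succ j ih =>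
    intro hn
    have h1 := ih (by omega)
    have h2 := Jn_upper (n := n) (m := m + j) (by omega) (by omega)
    calc Jn n (m + (j + 1)) ≤ 22014720 * (n ^ 3 * Jn n (m + j)) := h2
      _ = (22014720 * n ^ 3) * Jn n (m + j) := by ring
      _ ≤ (22014720 * n ^ 3) * ((22014720 * n ^ 3) ^ j * Jn n m) := Nat.mul_le_mul_left _ h1
      _ = _ := by rw [pow_succ]; ring

theorem Jn_low_chain {n m : ℕ} (hm : 3 ≤ m) (j : ℕ) : m + j ≤ n →
    Jn n m * m.choose 3 ^ j ≤ Jn n (m + j) := by
  induction j with
  | zero =>
    intro _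
    rw [add_zero, pow_zero, mul_one]
  | succ j ih =>
    intro hn
    have h1 := ih (by omega)
    have h2 := Jn_lower (n := n) (m := m + j) (by omega) (by omega)
    calc Jn n m * m.choose 3 ^ (j + 1) = (Jn n m * m.choose 3 ^ j) * m.choose 3 := by
          rw [pow_succ]; ring
      _ ≤ Jn n (m + j) * m.choose 3 := Nat.mul_le_mul_right _ h1
      _ ≤ Jn n (m + j) * (m + j).choose 3 :=
          Nat.mul_le_mul_left _ (Nat.choose_le_choose 3 (by omega))
      _ ≤ _ := h2

/-- comparison of the numbers for different sizes -/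
theorem Jn_compare (o k n : ℕ) (hn : 2 * (o + k) + 4 ≤ n) :
    n ^ (3 * o) * Jn n (n - o) ≤ 22014720 ^ (o + k) * (n ^ (3 * k) * Jn n (n - k)) := by
  rcases le_or_gt o k with h | h
  · have h1 := Jn_up_chain (n := n) (m := n - k) (by omega) (k - o) (by omega)
    rw [show n - k + (k - o) = n - o by omega] at h1
    calc n ^ (3 * o) * Jn n (n - o)
        ≤ n ^ (3 * o) * ((22014720 * n ^ 3) ^ (k - o) * Jn n (n - k)) :=
          Nat.mul_le_mul_left _ h1
      _ = 22014720 ^ (k - o) * ((n ^ (3 * o) * n ^ (3 * (k - o))) * Jn n (n - k)) := by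
          rw [mul_pow, ← pow_mul]; ring
      _ = 22014720 ^ (k - o) * (n ^ (3 * k) * Jn n (n - k)) := by
          rw [← pow_add]
          congr 4
          omega
      _ ≤ _ := Nat.mul_le_mul_right _ (Nat.pow_le_pow_right (by norm_num) (by omega))
  · have h1 := Jn_low_chain (n := n) (m := n - o) (by omega) (o - k) (by omega)
    rw [show n - o + (o - k) = n - k by omega] at h1
    have h2 : n ^ 3 ≤ 48 * (n - o).choose 3 := cube_le (by omega)
    calc n ^ (3 * o) * Jn n (n - o)
        = n ^ (3 * k) * ((n ^ 3) ^ (o - k) * Jn n (n - o)) := by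
          rw [← pow_mul, ← mul_assoc, ← pow_add]
          congr 2
          omega
      _ ≤ n ^ (3 * k) * ((48 * (n - o).choose 3) ^ (o - k) * Jn n (n - o)) :=
          Nat.mul_le_mul_left _ (Nat.mul_le_mul_right _ (Nat.pow_le_pow_left h2 _))
      _ = 48 ^ (o - k) * (n ^ (3 * k) * (Jn n (n - o) * (n - o).choose 3 ^ (o - k))) := by
          rw [mul_pow]; ring
      _ ≤ 48 ^ (o - k) * (n ^ (3 * k) * Jn n (n - k)) :=
          Nat.mul_le_mul_left _ (Nat.mul_le_mul_left _ h1)
      _ ≤ 22014720 ^ (o - k) * (n ^ (3 * k) * Jn n (n - k)) :=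
          Nat.mul_le_mul_right _ (Nat.pow_le_pow_left (by norm_num) _)
      _ ≤ _ := Nat.mul_le_mul_right _ (Nat.pow_le_pow_right (by norm_num) (by omega))

open Classical in
/-- the number of typical graphs -/
theorem typ_le (s n : ℕ) (hn : s ≤ n) :
    ((indset n).filter fun G => ∃ K, Typical s G K).card ≤
      ∑ o ∈ range (s + 1), 2 ^ (o ^ 2) * (n ^ (3 * o) * Jn n (n - o)) := by
  have hcov : ((indset n).filter fun G => ∃ K, Typical s G K) ⊆
      (range (s + 1)).biUnion fun o => (powersetCard (n - o) (univ : Finset (Fin n))).biUnion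
        fun K => TY n s K := by
    intro G hG
    rw [mem_filter] at hG
    obtain ⟨hG, K, hK⟩ := hG
    have h1 := hK.large
    have h2 := card_le_univ K
    rw [Fintype.card_fin] at h2
    rw [mem_biUnion]
    refine ⟨n - K.card, mem_range.mpr (by omega), ?_⟩
    rw [mem_biUnion]
    refine ⟨K, mem_powersetCard.mpr ⟨subset_univ _, by omega⟩, ?_⟩
    rw [TY, mem_filter]
    exact ⟨hG, hK⟩
  refine (card_le_card hcov).trans (card_biUnion_le.trans ?_)
  apply sum_le_sum
  intro o ho
  rw [mem_range] at ho
  refine card_biUnion_le.trans ?_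
  have h1 : ∀ K ∈ powersetCard (n - o) (univ : Finset (Fin n)), (TY n s K).card ≤
      Jn n (n - o) * (2 ^ (o ^ 2) * n ^ (2 * o)) := by
    intro K hK
    have hKc := (mem_powersetCard.mp hK).2
    have h2 := TY_le n s K
    have hO : (univ \ K).card = o := by
      rw [card_sdiff_of_subset (subset_univ _), card_univ, Fintype.card_fin]
      omega
    rw [hO, J_eq, hKc] at h2
    refine h2.trans ?_
    apply Nat.mul_le_mul_left
    apply Nat.mul_le_mul_left
    rw [pow_mul]
    apply Nat.pow_le_pow_left
    exact (Nat.choose_le_pow _ _).trans (Nat.pow_le_pow_left (by omega) 2)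
  refine (sum_le_sum h1).trans ?_
  rw [sum_const, smul_eq_mul, card_powersetCard, card_univ, Fintype.card_fin]
  have h3 : n.choose (n - o) ≤ n ^ o := by
    rw [Nat.choose_symm (by omega)]
    exact Nat.choose_le_pow _ _
  calc n.choose (n - o) * (Jn n (n - o) * (2 ^ (o ^ 2) * n ^ (2 * o)))
      ≤ n ^ o * (Jn n (n - o) * (2 ^ (o ^ 2) * n ^ (2 * o))) := Nat.mul_le_mul_right _ h3
    _ = 2 ^ (o ^ 2) * ((n ^ o * n ^ (2 * o)) * Jn n (n - o)) := by ring
    _ = _ := by
        rw [← pow_add]
        congr 4
        omega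

end Pool.Agent.Lib.MP_071ace_co.AK
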