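import Pool.Agent.Lib.MP_071ace_co.AK.Remove

/-!
# The number of isostatic graphs grows at most by `C n ^ 3` with each vertex
-/

set_option autoImplicit false

namespace Pool.Agent.Lib.MP_071ace_co.AK

open Finset Submodule AA

variable {V : Type} [Fintype V] [DecidableEq V]

theorem choose_bound {j : ℕ} (hj : j ≤ 3) : ((j + 3).choose 2).choose j ≤ 455 := by
  interval_cases j <;> decide

theorem deg_count {K : Finset V} {v : V} (hv : v ∉ K) (hK : 3 ≤ K.card) {j : ℕ} (hj : j ≤ 3) :
    ((isoF (insert v K) ∅).filter fun B : Finset (Sym2 V) =>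
      (nb (B : Set (Sym2 V)) v).card = j + 3).card ≤ 786240 * (K.card ^ 3 * J K ∅) := by
  classical
  set T := (powersetCard (j + 3) K).sigma fun N => (powersetCard j (pairsF N)).sigma fun F =>
    isoF K F with hT
  have h1 : ((isoF (insert v K) ∅).filter fun B : Finset (Sym2 V) =>
      (nb (B : Set (Sym2 V)) v).card = j + 3).card ≤ T.card := by
    refine card_le_card_of_surjOn (fun q => (q.2.2 \ q.2.1) ∪ starF v q.1) ?_
    intro B hB
    rw [mem_coe, mem_filter, mem_isoF] at hB
    obtain ⟨⟨⟨hI, hBK⟩, hBc, _⟩, hdeg⟩ := hB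
    rw [card_insert_of_notMem hv] at hBc
    obtain ⟨hNK, _, hdK, hsum, F, hFc, hFN, hFd, hFI⟩ := remove hv hK hI hBK
      (by rw [Set.ncard_coe_finset]; exact hBc)
    set N := nb (B : Set (Sym2 V)) v with hN
    rw [Set.ncard_coe_finset] at hsum
    set D := B.filter fun e => v ∉ e with hD
    have hDc : (D : Set (Sym2 V)) = del (B : Set (Sym2 V)) v := by
      ext e
      rw [mem_coe, hD, mem_filter]
      rfl
    set F' := (Set.toFinite F).toFinset with hF'
    have hFF : (F' : Set (Sym2 V)) = F := Set.Finite.coe_toFinset _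
    have hF'c : F'.card = j := by
      rw [← Set.ncard_coe_finset, hFF]
      omega
    have hDD : D.card + N.card = B.card := by
      rw [← hsum, ← hDc, Set.ncard_coe_finset]
    have hdisj : Disjoint F' D := by
      rw [← disjoint_coe, hFF, hDc]
      exact hFd
    rw [Set.mem_image]
    refine ⟨⟨N, F', D ∪ F'⟩, ?_, ?_⟩
    · rw [mem_coe, hT, mem_sigma]
      refine ⟨mem_powersetCard.mpr ⟨hNK, hdeg⟩, ?_⟩
      rw [mem_sigma]
      refine ⟨mem_powersetCard.mpr ⟨?_, hF'c⟩, ?_⟩
      · rw [← coe_subset, hFF, coe_pairsF]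
        exact hFN
      · show D ∪ F' ∈ isoF K F'
        rw [mem_isoF, coe_union, hDc, hFF]
        refine ⟨⟨hFI, Set.union_subset hdK (hFN.trans (pairs_mono hNK))⟩, ?_, subset_union_right⟩
        rw [card_union_of_disjoint hdisj.symm]
        omega
    · show (D ∪ F') \ F' ∪ starF v N = B
      rw [union_sdiff_cancel_right hdisj.symm]
      rw [← coe_inj, coe_union, hDc, coe_starF]
      exact (del_union_star _ _).symm
  have h2 : K.card ^ j * T.card ≤ K.card ^ j * (786240 * (K.card ^ 3 * J K ∅)) := by
    rw [hT, card_sigma, mul_sum]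
    have h3 : ∀ N ∈ powersetCard (j + 3) K,
        K.card ^ j * ((powersetCard j (pairsF N)).sigma fun F => isoF K F).card ≤
          455 * (1728 * J K ∅) := by
      intro N hN
      rw [mem_powersetCard] at hN
      rw [card_sigma, mul_sum]
      have h4 : ∀ F ∈ powersetCard j (pairsF N), K.card ^ j * (isoF K F).card ≤
          1728 * J K ∅ := by
        intro F hF
        rw [mem_powersetCard] at hF
        have := J_few hK (F := F) (by omega)
        rw [hF.2] at this
        exact this
      refine (sum_le_sum h4).trans ?_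
      rw [sum_const, smul_eq_mul, card_powersetCard, card_pairsF, hN.2]
      exact Nat.mul_le_mul_right _ (choose_bound hj)
    refine (sum_le_sum h3).trans ?_
    rw [sum_const, smul_eq_mul, card_powersetCard]
    have h5 := Nat.choose_le_pow K.card (j + 3)
    calc K.card.choose (j + 3) * (455 * (1728 * J K ∅))
        ≤ K.card ^ (j + 3) * (455 * (1728 * J K ∅)) := Nat.mul_le_mul_right _ h5
      _ = _ := by rw [pow_add]; ring
  exact h1.trans (Nat.le_of_mul_le_mul_left h2 (pow_pos (by omega) j))

theorem deg_le_six {K : Finset V} {v : V} (hv : v ∉ K) (hK : 3 ≤ K.card) :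
    ((isoF (insert v K) ∅).filter fun B : Finset (Sym2 V) =>
      (nb (B : Set (Sym2 V)) v).card ≤ 6).card ≤ 3144960 * (K.card ^ 3 * J K ∅) := by
  classical
  have h1 : ((isoF (insert v K) ∅).filter fun B : Finset (Sym2 V) =>
      (nb (B : Set (Sym2 V)) v).card ≤ 6) ⊆ (range 4).biUnion fun j =>
        (isoF (insert v K) ∅).filter fun B : Finset (Sym2 V) =>
          (nb (B : Set (Sym2 V)) v).card = j + 3 := by
    intro B hB
    rw [mem_filter] at hB
    have h2 := mem_isoF.mp hB.1
    obtain ⟨⟨hI, hBK⟩, hBc, _⟩ := h2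
    rw [card_insert_of_notMem hv] at hBc
    obtain ⟨_, h3, _⟩ := remove hv hK hI hBK (by rw [Set.ncard_coe_finset]; exact hBc)
    rw [mem_biUnion]
    refine ⟨(nb (B : Set (Sym2 V)) v).card - 3, mem_range.mpr (by omega), ?_⟩
    rw [mem_filter]
    exact ⟨hB.1, by omega⟩
  refine (card_le_card h1).trans (card_biUnion_le.trans ?_)
  have h2 : ∀ j ∈ range 4, ((isoF (insert v K) ∅).filter fun B : Finset (Sym2 V) =>
      (nb (B : Set (Sym2 V)) v).card = j + 3).card ≤ 786240 * (K.card ^ 3 * J K ∅) := by
    intro j hj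
    exact deg_count hv hK (by rw [mem_range] at hj; omega)
  refine (sum_le_sum h2).trans ?_
  rw [sum_const, card_range, smul_eq_mul]
  omega

/-- The number of isostatic graphs grows at most by the factor `C n³`. -/
theorem iso_upper {K : Finset V} {v : V} (hv : v ∉ K) (hK : 3 ≤ K.card) :
    J (insert v K) ∅ ≤ 22014720 * (K.card ^ 3 * J K ∅) := by
  classical
  set U := insert v K with hU
  have hUc : U.card = K.card + 1 := card_insert_of_notMem hv
  -- every graph has many vertices of small degree
  have h1 : ∀ B ∈ isoF U ∅, U.card ≤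
      7 * (U.filter fun x => (nb (B : Set (Sym2 V)) x).card ≤ 6).card := by
    intro B hB
    rw [mem_isoF] at hB
    obtain ⟨⟨hI, _⟩, hBc, _⟩ := hB
    have h2 := sum_nb (C := (B : Set (Sym2 V))) fun x => hI.not_loop x
    rw [Set.ncard_coe_finset] at h2
    have h3 : ∑ x ∈ U, (nb (B : Set (Sym2 V)) x).card ≤ ∑ x, (nb (B : Set (Sym2 V)) x).card :=
      sum_le_sum_of_subset (subset_univ _)
    have h4 : (U.filter fun x => ¬ (nb (B : Set (Sym2 V)) x).card ≤ 6).card * 7 ≤
        ∑ x ∈ U, (nb (B : Set (Sym2 V)) x).card := by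
      refine le_trans ?_ (sum_le_sum_of_subset (filter_subset
        (fun x => ¬ (nb (B : Set (Sym2 V)) x).card ≤ 6) U))
      rw [← smul_eq_mul]
      apply card_nsmul_le_sum
      intro x hx
      have := (mem_filter.mp hx).2
      omega
    have h5 : (U.filter fun x => (nb (B : Set (Sym2 V)) x).card ≤ 6).card +
        (U.filter fun x => ¬ (nb (B : Set (Sym2 V)) x).card ≤ 6).card = U.card :=
      card_filter_add_card_filter_not _
    omega
  have h2 : U.card * J U ∅ ≤ U.card * (22014720 * (K.card ^ 3 * J K ∅)) := by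
    calc U.card * J U ∅ = ∑ B ∈ isoF U ∅, U.card := by
          rw [sum_const, smul_eq_mul, mul_comm]
          rfl
      _ ≤ ∑ B ∈ isoF U ∅, 7 * (U.filter fun x => (nb (B : Set (Sym2 V)) x).card ≤ 6).card :=
          sum_le_sum h1
      _ = 7 * ∑ x ∈ U, ((isoF U ∅).filter fun B : Finset (Sym2 V) =>
            (nb (B : Set (Sym2 V)) x).card ≤ 6).card := by
          rw [← mul_sum]
          congr 1
          simp only [card_filter]
          exact sum_comm
      _ ≤ 7 * ∑ x ∈ U, 3144960 * (K.card ^ 3 * J K ∅) := by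
          apply Nat.mul_le_mul_left
          apply sum_le_sum
          intro x hx
          have hxe : x ∉ U.erase x := notMem_erase x U
          have hc : (U.erase x).card = K.card := by
            rw [card_erase_of_mem hx, hUc]
            rfl
          have h3 := deg_le_six hxe (by omega)
          rw [insert_erase hx, hc] at h3
          have h4 : J (U.erase x) ∅ = J K ∅ := iso_card hc
          rw [h4] at h3
          exact h3
      _ = _ := by
          rw [sum_const, smul_eq_mul]
          ring
  exact Nat.le_of_mul_le_mul_left h2 (by omega)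

/-- The number of isostatic graphs grows at least by the factor `(n choose 3)`. -/
theorem iso_lower {K : Finset V} {v : V} (hv : v ∉ K) (hK : 3 ≤ K.card) :
    J K ∅ * K.card.choose 3 ≤ J (insert v K) ∅ := by
  classical
  obtain ⟨p, hp⟩ := exists_generic V
  rw [← card_powersetCard 3 K, J, ← card_product]
  refine card_le_card_of_injOn (fun q => q.1 ∪ starF v q.2) ?_ ?_
  · rintro ⟨B, N⟩ hq
    rw [mem_coe, mem_product, mem_isoF, mem_powersetCard] at hq
    obtain ⟨⟨⟨hI, hBK⟩, hBc, _⟩, hNK, hNc⟩ := hq
    obtain ⟨h1, h2, h3⟩ := add_star hp hI hBK hv hNK hNc.le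
    rw [mem_coe, mem_isoF, coe_union, coe_starF]
    refine ⟨⟨h1, h2⟩, ?_, empty_subset _⟩
    rw [← coe_starF, ← coe_union, Set.ncard_coe_finset, Set.ncard_coe_finset] at h3
    rw [h3, card_insert_of_notMem hv]
    omega
  · rintro ⟨B, N⟩ hq ⟨B', N'⟩ hq' h
    rw [mem_coe, mem_product, mem_isoF, mem_powersetCard] at hq hq'
    obtain ⟨⟨⟨hI, hBK⟩, hBc, _⟩, hNK, hNc⟩ := hq
    obtain ⟨⟨⟨hI', hBK'⟩, hBc', _⟩, hNK', hNc'⟩ := hq'
    simp only at h hBK hBK' hNK hNK'
    have key : ∀ (B : Finset (Sym2 V)) (N : Finset V), (B : Set (Sym2 V)) ⊆ pairs K →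
        (B ∪ starF v N).filter (fun e => v ∉ e) = B ∧
          (∀ x, x ∈ N ↔ s(v, x) ∈ B ∪ starF v N) := by
      intro B N hBK
      have hav : ∀ e ∈ B, v ∉ e := fun e he => pairs_avoids hv e (hBK (mem_coe.mpr he))
      constructor
      · ext e
        rw [mem_filter, mem_union]
        constructor
        · rintro ⟨h1 | h1, h2⟩
          · exact h1
          · obtain ⟨x, _, rfl⟩ := mem_image.mp h1
            exact absurd (Sym2.mem_mk_left _ _) h2
        · intro h1
          exact ⟨Or.inl h1, hav e h1⟩
      · intro x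
        rw [mem_union]
        constructor
        · intro hx
          exact Or.inr (mem_image.mpr ⟨x, hx, rfl⟩)
        · rintro (h1 | h1)
          · exact absurd (Sym2.mem_mk_left _ _) (hav _ h1)
          · obtain ⟨y, hy, h2⟩ := mem_image.mp h1
            have : y = x := Sym2.congr_right.mp h2
            exact this ▸ hy
    have h1 := key B N hBK
    have h2 := key B' N' hBK'
    have e1 : B = B' := by rw [← h1.1, ← h2.1, h]
    have e2 : N = N' := by
      ext x
      rw [h1.2, h2.2, h]
    rw [e1, e2]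

end Pool.Agent.Lib.MP_071ace_co.AK
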